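import Pool.Agent.H247Z.SBC.SubDefs

/-! The abstract substitution layer. -/

set_option autoImplicit false

namespace Pool.Agent.H247Z.SBC

open Classical

section General

variable {α : Type} {R : Fin 3 → α → α → Prop}

lemma sh_sh (a b : Pt) (X : Cfg α) : sh a (sh b X) = sh (a + b) X := by
  funext i; simp [sh, add_assoc]

lemma sh_zero (X : Cfg α) : sh 0 X = X := by
  funext i; simp [sh]

lemma Valid.shift {X : Cfg α} (h : Valid R X) (v : Pt) : Valid R (sh v X) := by
  intro w i
  have := h (w + v) i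
  simp only [sh]
  rwa [add_right_comm w v] at this

lemma Local.site (g : α → ℝ) : Local (fun X : Cfg α => g (X 0)) :=
  ⟨{0}, fun X Y h => by simp only [h 0 (Finset.mem_singleton_self _)]⟩

lemma Local.smul {f : Cfg α → ℝ} (hf : Local f) (c : ℝ) : Local (fun X => c * f X) := by
  obtain ⟨D, hD⟩ := hf
  exact ⟨D, fun X Y h => by simp only [hD X Y h]⟩

lemma Cob.smul {f : Cfg α → ℝ} (hf : Cob R f) (c : ℝ) : Cob R (fun X => c * f X) := by
  induction hf with
  | base g hg v => exact (Cob.base _ (hg.smul c) v).congr fun X _ => by ring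
  | zero => exact Cob.zero.congr fun X _ => by ring
  | add _ _ ih1 ih2 => exact (ih1.add ih2).congr fun X _ => by ring
  | congr _ h ih => exact ih.congr fun X hX => by rw [h X hX]

lemma Cob.sum {ι : Type} (s : Finset ι) (f : ι → Cfg α → ℝ) (hf : ∀ i ∈ s, Cob R (f i)) :
    Cob R (fun X => ∑ i ∈ s, f i X) := by
  induction s using Finset.induction_on with
  | empty => exact Cob.zero.congr fun X _ => by simp
  | insert a s ha ih =>
    exact ((hf a (Finset.mem_insert_self _ _)).add
      (ih fun i hi => hf i (Finset.mem_insert_of_mem hi))).congr fun X _ => by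
        rw [Finset.sum_insert ha]

lemma Triv.congr {f g : Cfg α → ℝ} (hf : Triv R f) (h : ∀ X, Valid R X → f X = g X) :
    Triv R g := by
  obtain ⟨c, hc⟩ := hf
  exact ⟨c, hc.congr fun X hX => by rw [h X hX]⟩

lemma Triv.add {f g : Cfg α → ℝ} (hf : Triv R f) (hg : Triv R g) :
    Triv R (fun X => f X + g X) := by
  obtain ⟨c, hc⟩ := hf
  obtain ⟨d, hd⟩ := hg
  exact ⟨c + d, (hc.add hd).congr fun X _ => by ring⟩

lemma Triv.smul {f : Cfg α → ℝ} (hf : Triv R f) (a : ℝ) : Triv R (fun X => a * f X) := by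
  obtain ⟨c, hc⟩ := hf
  exact ⟨a * c, (hc.smul a).congr fun X _ => by ring⟩

lemma Cob.triv {f : Cfg α → ℝ} (hf : Cob R f) : Triv R f :=
  ⟨0, hf.congr fun X _ => by ring⟩

lemma Triv.sum {ι : Type} (s : Finset ι) (f : ι → Cfg α → ℝ) (hf : ∀ i ∈ s, Triv R (f i)) :
    Triv R (fun X => ∑ i ∈ s, f i X) := by
  induction s using Finset.induction_on with
  | empty => exact Cob.zero.triv.congr fun X _ => by simp
  | insert a s ha ih =>
    exact ((hf a (Finset.mem_insert_self _ _)).add
      (ih fun i hi => hf i (Finset.mem_insert_of_mem hi))).congr fun X _ => by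
        rw [Finset.sum_insert ha]

lemma affine_of_step {A : Type} [AddCommGroup A] (φ : Pt → A) (c : Fin 3 → A)
    (h : ∀ v i, φ (v + uv i) = φ v + c i) (v : Pt) :
    φ v = φ 0 + (v 0 • c 0 + v 1 • c 1 + v 2 • c 2) := by
  have h1 : ∀ (i : Fin 3) (n : ℤ) (w : Pt), φ (w + n • uv i) = φ w + n • c i := by
    intro i n
    induction n using Int.induction_on with
    | zero => intro w; simp
    | succ n ih =>
      intro w
      rw [add_smul, one_smul, ← add_assoc, h, ih, add_smul, one_smul, add_assoc]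
    | pred n ih =>
      intro w
      have h2 := h (w + (-(n : ℤ) - 1) • uv i) i
      have e : w + (-(n : ℤ) - 1) • uv i + uv i = w + (-(n : ℤ)) • uv i := by
        rw [sub_smul, one_smul]; abel
      rw [e, ih] at h2
      rw [sub_smul (-(n : ℤ)) 1 (c i), one_smul, ← add_sub_assoc, h2]
      abel
  have e : v = 0 + v 0 • uv 0 + v 1 • uv 1 + v 2 • uv 2 := by
    funext i
    fin_cases i <;> simp [uv]
  conv_lhs => rw [e]
  rw [h1, h1, h1]
  abel

end General

section Subst

variable {α : Type} {R : Fin 3 → α → α → Prop} {N : ℕ} [NeZero N]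
  {σ : α → (Fin 3 → ZMod N) → α} {pos : α → Fin 3 → ZMod N} {ok : α → Prop}

/-- reduction of a site -/
def cst (N : ℕ) (v : Pt) : Fin 3 → ZMod N := fun i => ((v i : ℤ) : ZMod N)

/-- canonical lift of a residue -/
def lft {N : ℕ} (q : Fin 3 → ZMod N) : Pt := fun i => ((q i).val : ℤ)

lemma cst_lft (q : Fin 3 → ZMod N) : cst N (lft q) = q := by
  funext i; simp [cst, lft]

omit [NeZero N] in
lemma lft_nonneg (q : Fin 3 → ZMod N) (i : Fin 3) : 0 ≤ lft q i := Int.natCast_nonneg _

lemma lft_lt (q : Fin 3 → ZMod N) (i : Fin 3) : lft q i < N := by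
  have := ZMod.val_lt (q i)
  simp only [lft]; exact_mod_cast this

lemma N_pos : (0 : ℤ) < N := by
  have := NeZero.pos N
  exact_mod_cast this

omit [NeZero N] in
lemma SelfSim.pos_valid (h : SelfSim R N σ pos ok) {Y : Cfg α} (hY : Valid R Y) (v : Pt) :
    pos (Y v) = pos (Y 0) + cst N v := by
  rw [affine_of_step (fun v => pos (Y v)) (fun i => Pi.single i 1)
    (fun v i => h.pos_R i _ _ (hY v i)) v]
  congr 1
  funext i
  fin_cases i <;> simp [cst]

lemma sub_block (X : Cfg α) (v : Pt) (q : Fin 3 → ZMod N) :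
    sub σ X ((N : ℤ) • v + lft q) = σ (X v) q := by
  unfold sub
  congr 1
  · congr 1
    funext i
    simp only [Pi.add_apply, Pi.smul_apply, smul_eq_mul]
    rw [add_comm, Int.add_mul_ediv_left _ _ (N_pos (N := N)).ne',
      Int.ediv_eq_zero_of_lt (lft_nonneg q i) (lft_lt q i), zero_add]
  · funext i
    simp [lft]

lemma decomp (v : Pt) : v = (N : ℤ) • (fun i => v i / (N : ℤ)) + lft (cst N v) := by
  funext i
  simp only [Pi.add_apply, Pi.smul_apply, smul_eq_mul, lft, cst, ZMod.val_intCast]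
  exact (Int.mul_ediv_add_emod _ _).symm

lemma sh_sub (X : Cfg α) (b : Pt) : sh ((N : ℤ) • b) (sub σ X) = sub σ (sh b X) := by
  funext v
  have e : v + (N : ℤ) • b = (N : ℤ) • ((fun i => v i / (N : ℤ)) + b) + lft (cst N v) := by
    conv_lhs => rw [decomp (N := N) v]
    rw [smul_add]; abel
  simp only [sh]
  rw [e, sub_block]
  rfl

lemma lft_succ_of_ne (q : Fin 3 → ZMod N) (i : Fin 3) (hq : q i ≠ -1) :
    lft (q + Pi.single i 1) = lft q + uv i := by
  funext j
  by_cases hj : j = i
  · subst hj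
    simp only [lft, uv, Pi.add_apply, Pi.single_eq_same]
    have h1 := ZMod.val_lt (q j)
    have h2 : (q j).val + 1 < N := by
      by_contra hc
      apply hq
      have h3 : (q j).val + 1 = N := by omega
      have h4 : (((q j).val + 1 : ℕ) : ZMod N) = 0 := by rw [h3]; simp
      push_cast at h4
      rw [ZMod.natCast_zmod_val] at h4
      exact eq_neg_of_add_eq_zero_left h4
    have h5 : q j + 1 = (((q j).val + 1 : ℕ) : ZMod N) := by
      push_cast; rw [ZMod.natCast_zmod_val]
    rw [h5, ZMod.val_natCast, Nat.mod_eq_of_lt h2]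
    push_cast; rfl
  · simp [lft, uv, Pi.single_eq_of_ne hj]

lemma lft_succ_of_eq (q : Fin 3 → ZMod N) (i : Fin 3) (hq : q i = -1) :
    (N : ℤ) • uv i + lft (q + Pi.single i 1) = lft q + uv i := by
  funext j
  by_cases hj : j = i
  · subst hj
    simp only [lft, uv, Pi.add_apply, Pi.single_eq_same, Pi.smul_apply, hq, neg_add_cancel,
      ZMod.val_zero, smul_eq_mul]
    obtain ⟨n, rfl⟩ := Nat.exists_eq_succ_of_ne_zero (NeZero.ne N)
    rw [ZMod.val_neg_one]
    push_cast; ring
  · simp [lft, uv, Pi.single_eq_of_ne hj]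

lemma SelfSim.sub_rule (h : SelfSim R N σ pos ok) (X : Cfg α) (w : Pt) (q : Fin 3 → ZMod N)
    (i : Fin 3) (hok : ok (X w)) (hR : q i = -1 → R i (X w) (X (w + uv i))) :
    R i (sub σ X ((N : ℤ) • w + lft q)) (sub σ X ((N : ℤ) • w + lft q + uv i)) := by
  by_cases hq : q i = -1
  · have e : (N : ℤ) • w + lft q + uv i = (N : ℤ) • (w + uv i) + lft (q + Pi.single i 1) := by
      rw [add_assoc, ← lft_succ_of_eq q i hq, smul_add]; abel
    rw [e, sub_block, sub_block]
    exact h.outer _ _ q i (hR hq) hq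
  · rw [add_assoc, ← lft_succ_of_ne q i hq, sub_block, sub_block]
    exact h.inner _ q i hok hq

omit [NeZero N] in
lemma SelfSim.ok_valid (h : SelfSim R N σ pos ok) {X : Cfg α} (hX : Valid R X) (v : Pt) :
    ok (X v) := h.ok_of 0 _ _ (hX v 0)

lemma SelfSim.valid_sub (h : SelfSim R N σ pos ok) {X : Cfg α} (hX : Valid R X) :
    Valid R (sub σ X) := by
  intro v i
  rw [decomp (N := N) v]
  exact h.sub_rule X _ _ i (h.ok_valid hX _) (fun _ => hX _ i)

/-- indicator of a position -/
noncomputable def indp (pos : α → Fin 3 → ZMod N) (q : Fin 3 → ZMod N) (Y : Cfg α) : ℝ :=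
  if pos (Y 0) = q then 1 else 0

lemma SelfSim.pos_shift (h : SelfSim R N σ pos ok) {Y : Cfg α} (hY : Valid R Y)
    (q : Fin 3 → ZMod N) : pos (sh (lft q) Y 0) = q ↔ pos (Y 0) = 0 := by
  simp only [sh, zero_add]
  rw [h.pos_valid hY, cst_lft]
  simp

lemma SelfSim.cob_indp (h : SelfSim R N σ pos ok) (q : Fin 3 → ZMod N) :
    Cob R (fun Y => indp pos 0 Y - indp pos q Y) := by
  refine (Cob.base (indp pos q)
    (Local.site (fun a => if pos a = q then (1 : ℝ) else 0)) (lft q)).congr fun Y hY => ?_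
  simp only [indp, h.pos_shift hY q]

lemma SelfSim.triv_indp (h : SelfSim R N σ pos ok) (q : Fin 3 → ZMod N) :
    Triv R (indp pos q) := by
  have h0 : Triv R (indp pos (0 : Fin 3 → ZMod N)) := by
    have h1 := Cob.sum Finset.univ _ (fun q _ => h.cob_indp q)
    have hc : (Fintype.card (Fin 3 → ZMod N) : ℝ) ≠ 0 := by
      exact_mod_cast Fintype.card_ne_zero
    refine ⟨(Fintype.card (Fin 3 → ZMod N) : ℝ)⁻¹,
      (h1.smul (Fintype.card (Fin 3 → ZMod N) : ℝ)⁻¹).congr fun Y _ => ?_⟩
    have h2 : ∑ q : Fin 3 → ZMod N, indp pos q Y = 1 := by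
      simp [indp]
    rw [Finset.sum_sub_distrib, h2, Finset.sum_const, Finset.card_univ, nsmul_eq_mul]
    field_simp
  exact (h0.add ((h.cob_indp q).triv.smul (-1))).congr fun Y _ => by ring

theorem SelfSim.triv_pos (h : SelfSim R N σ pos ok) (g : (Fin 3 → ZMod N) → ℝ) :
    Triv1 R (fun a => g (pos a)) := by
  refine (Triv.sum Finset.univ _ (fun q _ => (h.triv_indp q).smul (g q))).congr fun Y _ => ?_
  simp [indp]

/-- reading a block -/
noncomputable def rd (σ : α → (Fin 3 → ZMod N) → α) (ok : α → Prop)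
    (B : (Fin 3 → ZMod N) → α) : α :=
  if hB : ∃ a, ok a ∧ σ a = B then hB.choose else B 0

/-- desubstitution -/
noncomputable def ds (σ : α → (Fin 3 → ZMod N) → α) (ok : α → Prop) (Y : Cfg α) : Cfg α :=
  fun v => rd σ ok (fun q => Y ((N : ℤ) • v + lft q))

lemma SelfSim.ds_sub (h : SelfSim R N σ pos ok) {X : Cfg α} (hX : Valid R X) :
    ds σ ok (sub σ X) = X := by
  funext v
  have hB : ∃ a, ok a ∧ σ a = fun q => sub σ X ((N : ℤ) • v + lft q) :=
    ⟨X v, h.ok_valid hX v, funext fun q => (sub_block X v q).symm⟩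
  simp only [ds, rd, dif_pos hB]
  refine h.inj _ _ hB.choose_spec.1 (h.ok_valid hX v) ?_
  rw [hB.choose_spec.2]
  exact funext fun q => sub_block X v q

omit [NeZero N] in
lemma ds_sh (Y : Cfg α) (v : Pt) : ds σ ok (sh ((N : ℤ) • v) Y) = sh v (ds σ ok Y) := by
  funext w
  simp only [ds, sh]
  congr 1
  funext q
  congr 1
  rw [smul_add]; abel

/-- the induced function -/
noncomputable def hat (σ : α → (Fin 3 → ZMod N) → α) (pos : α → Fin 3 → ZMod N) (ok : α → Prop)
    (g : Cfg α → ℝ) (Y : Cfg α) : ℝ :=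
  if pos (Y 0) = 0 then g (ds σ ok Y) else 0

lemma Local.hat {g : Cfg α → ℝ} (hg : Local g) : Local (hat σ pos ok g) := by
  obtain ⟨D, hD⟩ := hg
  refine ⟨insert 0 (D.biUnion fun v => Finset.univ.image
    (fun q : Fin 3 → ZMod N => (N : ℤ) • v + lft q)), fun X Y hXY => ?_⟩
  have h0 := hXY 0 (Finset.mem_insert_self _ _)
  have h1 : g (ds σ ok X) = g (ds σ ok Y) := by
    apply hD
    intro v hv
    simp only [ds]
    congr 1
    funext q
    exact hXY _ (Finset.mem_insert_of_mem (Finset.mem_biUnion.2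
      ⟨v, hv, Finset.mem_image_of_mem _ (Finset.mem_univ q)⟩))
  simp only [SBC.hat, h0, h1]

lemma SelfSim.cob_hat (h : SelfSim R N σ pos ok) {u : Cfg α → ℝ} (hu : Cob R u) :
    Cob R (hat σ pos ok u) := by
  induction hu with
  | base g hg v =>
    refine (Cob.base _ (hg.hat (σ := σ) (pos := pos) (ok := ok)) ((N : ℤ) • v)).congr
      fun Y hY => ?_
    have e : pos (sh ((N : ℤ) • v) Y 0) = pos (Y 0) := by
      simp only [sh, zero_add]
      rw [h.pos_valid hY]
      have : cst N ((N : ℤ) • v) = 0 := by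
        funext i; simp [cst]
      rw [this, add_zero]
    simp only [hat, e, ds_sh]
    split_ifs <;> simp
  | zero => exact Cob.zero.congr fun Y _ => by simp [hat]
  | add _ _ ih1 ih2 =>
    refine (ih1.add ih2).congr fun Y _ => ?_
    simp only [hat]
    split_ifs <;> simp
  | congr _ hc ih =>
    refine ih.congr fun Y hY => ?_
    simp only [hat]
    split_ifs with hp
    · obtain ⟨X, hX, rfl⟩ := h.desub Y hY hp
      rw [h.ds_sub hX]
      exact hc X hX
    · rfl

/-- the pull-back of a function under the substitution -/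
noncomputable def pull (σ : α → (Fin 3 → ZMod N) → α) (f : Cfg α → ℝ) (X : Cfg α) : ℝ :=
  ∑ q : Fin 3 → ZMod N, f (sh (lft q) (sub σ X))

lemma SelfSim.transfer_gen (h : SelfSim R N σ pos ok) {f : Cfg α → ℝ} (hf : Local f)
    (hp : Triv R (pull σ f)) : Triv R f := by
  obtain ⟨c, hc⟩ := hp
  have h1 := h.cob_hat hc
  have hloc : ∀ q : Fin 3 → ZMod N, Local (fun Y : Cfg α => if pos (Y 0) = q then f Y else 0) := by
    intro q
    obtain ⟨D, hD⟩ := hf
    refine ⟨insert 0 D, fun X Y hXY => ?_⟩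
    simp only [hXY 0 (Finset.mem_insert_self _ _),
      hD X Y (fun i hi => hXY i (Finset.mem_insert_of_mem hi))]
  have h2 := Cob.sum Finset.univ _ (fun q _ => Cob.base (R := R) _ (hloc q) (lft q))
  refine ((h1.triv.add (h2.triv.smul (-1))).add ((h.triv_indp 0).smul c)).congr fun Y hY => ?_
  have h3 : ∑ q : Fin 3 → ZMod N, (if pos (Y 0) = q then f Y else 0) = f Y := by simp
  simp only [h.pos_shift hY, Finset.sum_sub_distrib, h3, hat, indp]
  split_ifs with hp
  · obtain ⟨X, hX, rfl⟩ := h.desub Y hY hp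
    rw [h.ds_sub hX, pull]
    ring
  · simp

theorem SelfSim.transfer (h : SelfSim R N σ pos ok) (g : α → ℝ)
    (hg : Triv1 R (fun a => ∑ q : Fin 3 → ZMod N, g (σ a q))) : Triv1 R g := by
  refine h.transfer_gen (Local.site g) (Triv.congr hg fun X _ => ?_)
  simp only [pull]
  refine Finset.sum_congr rfl fun q _ => ?_
  have := sub_block (σ := σ) X 0 q
  simp only [smul_zero, zero_add] at this
  simp only [sh, zero_add, this]

lemma Local.pull {f : Cfg α → ℝ} (hf : Local f) : Local (pull σ f) := by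
  obtain ⟨D, hD⟩ := hf
  refine ⟨D.biUnion fun v => Finset.univ.image
    (fun q : Fin 3 → ZMod N => (fun i => (v + lft q) i / (N : ℤ) : Pt)), fun X Y hXY => ?_⟩
  refine Finset.sum_congr rfl fun q _ => hD _ _ fun v hv => ?_
  simp only [sh, sub]
  rw [hXY _ (Finset.mem_biUnion.2 ⟨v, hv, Finset.mem_image_of_mem _ (Finset.mem_univ q)⟩)]

/-- dependence on a box, on valid configurations -/
def Dep (R : Fin 3 → α → α → Prop) (r : ℕ) (f : Cfg α → ℝ) : Prop :=
  ∀ X Y, Valid R X → Valid R Y → (∀ v : Pt, (∀ i, -(r : ℤ) ≤ v i ∧ v i ≤ r) → X v = Y v) →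
    f X = f Y

lemma SelfSim.dep_pull (h : SelfSim R N σ pos ok) {f : Cfg α → ℝ} (r : ℕ)
    (hf : Dep R (r + 1) f) : Dep R r (pull σ f) := by
  intro X Y hX hY hXY
  refine Finset.sum_congr rfl fun q _ => hf _ _ ((h.valid_sub hX).shift _)
    ((h.valid_sub hY).shift _) fun v hv => ?_
  simp only [sh]
  rcases Nat.eq_zero_or_pos r with rfl | hr
  · refine h.collar X Y hX hY (hXY 0 fun i => by simp) _ fun i => ?_
    have h1 := hv i
    have h2 := lft_nonneg q i
    have h3 := lft_lt q i
    simp only [Pi.add_apply]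
    push_cast at h1
    omega
  · simp only [sub]
    rw [hXY]
    intro i
    have h1 := hv i
    have h2 := lft_nonneg q i
    have h3 := lft_lt q i
    have hN : (2 : ℤ) ≤ N := by exact_mod_cast h.two
    have hr' : (1 : ℤ) ≤ r := by exact_mod_cast hr
    simp only [Pi.add_apply]
    push_cast at h1
    constructor
    · rw [Int.le_ediv_iff_mul_le N_pos]
      nlinarith
    · rw [← Int.lt_add_one_iff, Int.ediv_lt_iff_lt_mul N_pos]
      nlinarith

lemma SelfSim.triv_all (h : SelfSim R N σ pos ok) (h1 : ∀ g : α → ℝ, Triv1 R g)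
    (f : Cfg α → ℝ) (hf : Local f) : Triv R f := by
  have main : ∀ (r : ℕ) (f : Cfg α → ℝ), Local f → Dep R r f → Triv R f := by
    intro r
    induction r with
    | zero =>
      intro f _ hd
      refine Triv.congr (h1 fun a => if ha : ∃ X, Valid R X ∧ X 0 = a then f ha.choose else 0)
        fun X hX => ?_
      have ha : ∃ Y, Valid R Y ∧ Y 0 = X 0 := ⟨X, hX, rfl⟩
      simp only [dif_pos ha]
      refine hd _ _ ha.choose_spec.1 hX fun v hv => ?_
      have : v = 0 := by
        funext i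
        have := hv i
        simp only [Nat.cast_zero, neg_zero] at this
        exact le_antisymm this.2 this.1
      rw [this]; exact ha.choose_spec.2
    | succ r ih =>
      intro f hf hd
      exact h.transfer_gen hf (ih _ hf.pull (h.dep_pull r hd))
  obtain ⟨D, hD⟩ := hf
  refine main (D.sup fun v => Finset.univ.sup fun i => (v i).natAbs) f ⟨D, hD⟩
    fun X Y _ _ hXY => hD X Y fun v hv => hXY v fun i => ?_
  have h2 : (v i).natAbs ≤ D.sup fun v => Finset.univ.sup fun i => (v i).natAbs :=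
    le_trans (Finset.le_sup (f := fun i => (v i).natAbs) (Finset.mem_univ i))
      (Finset.le_sup (f := fun v : Pt => Finset.univ.sup fun i => (v i).natAbs) hv)
  omega

lemma SelfSim.aper (h : SelfSim R N σ pos ok) :
    ∀ (n : ℕ) (a : Pt), (a 0).natAbs + (a 1).natAbs + (a 2).natAbs = n → a ≠ 0 →
      ∀ Y, Valid R Y → sh a Y ≠ Y := by
  intro n
  induction n using Nat.strong_induction_on with
  | _ n ih =>
    intro a hn ha Y hY hper
    set Z := sh (-lft (pos (Y 0))) Y with hZ
    have hZv : Valid R Z := hY.shift _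
    have hZ0 : pos (Z 0) = 0 := by
      simp only [hZ, sh, zero_add]
      rw [h.pos_valid hY]
      funext i
      simp [cst, lft]
    have hZp : sh a Z = Z := by
      rw [hZ, sh_sh, add_comm, ← sh_sh, hper]
    have hc : cst N a = 0 := by
      have h1 := h.pos_valid hZv a
      have h2 : Z a = Z 0 := by
        have := congrFun hZp 0
        simpa [sh] using this
      rw [h2] at h1
      exact left_eq_add.mp h1
    have hd : ∀ i, (N : ℤ) ∣ a i := fun i =>
      (ZMod.intCast_zmod_eq_zero_iff_dvd _ _).mp (congrFun hc i)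
    choose b hb using hd
    have hab : a = (N : ℤ) • (b : Pt) := funext fun i => hb i
    obtain ⟨X, hX, hZX⟩ := h.desub Z hZv hZ0
    have hb0 : (b : Pt) ≠ 0 := by
      intro e; apply ha; rw [hab, e, smul_zero]
    have hXp : sh b X = X := by
      rw [hZX, hab, sh_sub] at hZp
      rw [← h.ds_sub (hX.shift b), hZp, h.ds_sub hX]
    refine ih _ ?_ b rfl hb0 X hX hXp
    have hN := h.two
    have e : ∀ i, (a i).natAbs = N * (b i).natAbs := fun i => by
      rw [hb i, Int.natAbs_mul, Int.natAbs_natCast]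
    have hpos : 0 < (b 0).natAbs + (b 1).natAbs + (b 2).natAbs := by
      by_contra hc
      apply hb0
      funext i
      fin_cases i <;> simp only [Pi.zero_apply] <;> (apply Int.natAbs_eq_zero.mp; simp; omega)
    rw [← hn, e, e, e]
    nlinarith

lemma SelfSim.exists_box (h : SelfSim R N σ pos ok) (k : ℕ) :
    ∃ X : Cfg α, (∀ v : Pt, (∀ j, 0 ≤ v j ∧ v j < (N : ℤ) ^ k) → ok (X v)) ∧
      ∀ (v : Pt) (i : Fin 3), (∀ j, 0 ≤ v j ∧ v j < (N : ℤ) ^ k) → v i + 1 < (N : ℤ) ^ k →
        R i (X v) (X (v + uv i)) := by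
  induction k with
  | zero =>
    obtain ⟨a, ha⟩ := h.ok_ex
    refine ⟨fun _ => a, fun _ _ => ha, fun v i hv hi => ?_⟩
    have := hv i
    simp only [pow_zero] at this hi
    omega
  | succ k ih =>
    obtain ⟨X, h1, h2⟩ := ih
    have hw : ∀ v : Pt, (∀ j, 0 ≤ v j ∧ v j < (N : ℤ) ^ (k + 1)) →
        ∀ j, 0 ≤ v j / (N : ℤ) ∧ v j / (N : ℤ) < (N : ℤ) ^ k := by
      intro v hv j
      refine ⟨Int.ediv_nonneg (hv j).1 N_pos.le, ?_⟩
      rw [Int.ediv_lt_iff_lt_mul N_pos, ← pow_succ]
      exact (hv j).2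
    refine ⟨sub σ X, fun v hv => h.ok_σ _ _ (h1 _ (hw v hv)), fun v i hv hi => ?_⟩
    have hd := decomp (N := N) v
    rw [hd]
    refine h.sub_rule X _ _ i (h1 _ (hw v hv)) fun hq => h2 _ i (hw v hv) ?_
    have e1 := congrFun hd i
    have e2 := congrFun (lft_succ_of_eq _ i hq) i
    have e3 := lft_nonneg (cst N v + Pi.single i 1) i
    simp only [Pi.add_apply, Pi.smul_apply, smul_eq_mul, uv, Pi.single_eq_same, mul_one] at e1 e2
    have e4 : (N : ℤ) * (v i / (N : ℤ) + 1) < (N : ℤ) * (N : ℤ) ^ k := by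
      rw [← pow_succ']
      linarith
    exact lt_of_mul_lt_mul_left e4 N_pos.le

lemma SelfSim.exists_valid [Finite α] (h : SelfSim R N σ pos ok) : ∃ X, Valid R X := by
  let _ : TopologicalSpace α := ⊥
  have : DiscreteTopology α := ⟨rfl⟩
  let K : ℕ → Set (Cfg α) := fun n =>
    {X | ∀ (v : Pt) (i : Fin 3), (∀ j, -(n : ℤ) ≤ v j ∧ v j ≤ n) → R i (X v) (X (v + uv i))}
  have hcl : ∀ n, IsClosed (K n) := by
    intro n
    simp only [K, Set.ofPred_forall]
    refine isClosed_iInter fun v => isClosed_iInter fun i => isClosed_iInter fun _ => ?_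
    have hc : Continuous (fun X : Cfg α => (X v, X (v + uv i))) := by fun_prop
    exact (isClosed_discrete {p : α × α | R i p.1 p.2}).preimage hc
  have hne : ∀ n, (K n).Nonempty := by
    intro n
    obtain ⟨X, -, h2⟩ := h.exists_box (2 * n + 1)
    have hlt : (2 * n + 1 : ℤ) < (N : ℤ) ^ (2 * n + 1) := by
      have := Nat.lt_pow_self (n := 2 * n + 1) (show 1 < N from h.two)
      exact_mod_cast this
    refine ⟨sh (fun _ => (n : ℤ)) X, fun v i hv => ?_⟩
    have := h2 (v + fun _ => (n : ℤ)) i (fun j => by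
      have := hv j
      simp only [Pi.add_apply]
      omega) (by
      have := hv i
      simp only [Pi.add_apply]
      omega)
    simp only [sh]
    rwa [add_right_comm v] at this
  obtain ⟨X, hX⟩ := IsCompact.nonempty_iInter_of_sequence_nonempty_isCompact_isClosed K
    (fun n X hX v i hv => hX v i fun j => by
      have := hv j
      push_cast
      omega) hne (hcl 0).isCompact hcl
  refine ⟨X, fun v i => ?_⟩
  refine Set.mem_iInter.1 hX ((v 0).natAbs + (v 1).natAbs + (v 2).natAbs) v i fun j => ?_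
  have hj : ∀ j : Fin 3, (v j).natAbs ≤ (v 0).natAbs + (v 1).natAbs + (v 2).natAbs := by
    intro j
    fin_cases j
    · exact (Nat.le_add_right _ _).trans (Nat.le_add_right _ _)
    · exact (Nat.le_add_left _ _).trans (Nat.le_add_right _ _)
    · exact Nat.le_add_left _ _
  have := hj j
  omega

theorem SelfSim.good [Finite α] (h : SelfSim R N σ pos ok) (h1 : ∀ g : α → ℝ, Triv1 R g) :
    Good R :=
  ⟨h.exists_valid, fun X hX a ha => h.aper _ a rfl ha X hX, h.triv_all h1⟩

end Subst

end Pool.Agent.H247Z.SBC
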