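import Pool.Agent.H460Z.DmLat

set_option autoImplicit false

/-! The group `A ⋊ S` and its d-maximality. -/

namespace H460Z.Dm

open Finset
open scoped commutatorElement

variable {m : ℕ}

/-- the finite abelian group -/
abbrev A (m : ℕ) := Lam m ⧸ M m

/-- the projection -/
abbrev pr (w : Lam m) : A m := Submodule.Quotient.mk w

/-- the action -/
def act (u : S m) : A m →ₗ[ℤ] A m :=
  Submodule.mapQ (M m) (M m) (LinearMap.mulLeft ℤ (ch u)) (fun w hw => M_mul u w hw)

lemma act_pr (u : S m) (w : Lam m) : act u (pr w) = pr (ch u * w) := rfl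

lemma act_add (u v : S m) (a : A m) : act (u + v) a = act u (act v a) := by
  obtain ⟨w, rfl⟩ := Submodule.Quotient.mk_surjective _ a
  change act (u + v) (pr w) = act u (act v (pr w))
  rw [act_pr, act_pr, act_pr, ch_add, mul_assoc]

lemma act_zero (a : A m) : act (0 : S m) a = a := by
  obtain ⟨w, rfl⟩ := Submodule.Quotient.mk_surjective _ a
  change act 0 (pr w) = pr w
  rw [act_pr, ch_zero, one_mul]

/-- the semidirect product -/
@[ext] structure G (m : ℕ) where
  a : A m
  u : S m

instance : Mul (G m) := ⟨fun g h => ⟨g.a + act g.u h.a, g.u + h.u⟩⟩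
instance : One (G m) := ⟨⟨0, 0⟩⟩
instance : Inv (G m) := ⟨fun g => ⟨- act (-g.u) g.a, -g.u⟩⟩

@[simp] lemma mul_a (g h : G m) : (g * h).a = g.a + act g.u h.a := rfl
@[simp] lemma mul_u (g h : G m) : (g * h).u = g.u + h.u := rfl
@[simp] lemma one_a : (1 : G m).a = 0 := rfl
@[simp] lemma one_u : (1 : G m).u = 0 := rfl
@[simp] lemma inv_a (g : G m) : (g⁻¹).a = - act (-g.u) g.a := rfl
@[simp] lemma inv_u (g : G m) : (g⁻¹).u = -g.u := rfl

instance : Group (G m) :=
  Group.ofLeftAxioms
    (fun g h k => by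
      ext1
      · simp [act_add, add_assoc]
      · simp [add_assoc])
    (fun g => by
      ext1
      · simp [act_zero]
      · simp)
    (fun g => by
      ext1
      · simp
      · simp)

instance : Finite (A m) := by
  apply Module.finite_of_fg_torsion
  intro a
  obtain ⟨w, rfl⟩ := Submodule.Quotient.mk_surjective _ a
  refine ⟨⟨(2 : ℤ) ^ (m + 1), mem_nonZeroDivisors_of_ne_zero (by positivity)⟩, ?_⟩
  change (2 : ℤ) ^ (m + 1) • (Submodule.Quotient.mk w : A m) = 0
  rw [← Submodule.Quotient.mk_smul, Submodule.Quotient.mk_eq_zero]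
  exact pow_smul_mem_M w

instance : Finite (G m) :=
  Finite.of_injective (fun g : G m => (g.a, g.u)) (fun g h e => by
    ext1
    · exact congrArg Prod.fst e
    · exact congrArg Prod.snd e)

/-- translations -/
def tr (w : Lam m) : G m := ⟨pr w, 0⟩

lemma tr_add (v w : Lam m) : tr (v + w) = tr v * tr w := by
  ext1
  · simp [tr, act_zero]
  · simp [tr]

lemma tr_zero : tr (0 : Lam m) = 1 := by
  ext1
  · simp [tr]
  · simp [tr]

lemma tr_neg (w : Lam m) : tr (-w) = (tr w)⁻¹ := by
  ext1
  · simp [tr, act_zero]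
  · simp [tr]

lemma tr_of_mem {w : Lam m} (hw : w ∈ M m) : tr w = 1 := by
  ext1
  · simpa [tr] using hw
  · simp [tr]

lemma tr_nsmul (k : ℕ) (w : Lam m) : tr (k • w) = tr w ^ k := by
  induction k with
  | zero => simp [tr_zero]
  | succ k ih => rw [succ_nsmul, tr_add, ih, pow_succ]

lemma exists_tr (g : G m) (hg : g.u = 0) : ∃ w, g = tr w := by
  obtain ⟨w, hw⟩ := Submodule.Quotient.mk_surjective _ g.a
  refine ⟨w, ?_⟩
  ext1
  · exact hw.symm
  · exact hg

lemma conj_tr (g : G m) (w : Lam m) : g * tr w * g⁻¹ = tr (ch g.u * w) := by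
  ext1
  · simp only [tr, mul_a, mul_u, inv_a, add_zero, map_neg, ← act_add, add_neg_cancel, act_zero,
      act_pr]
    abel
  · simp [tr]

lemma isPGroup : IsPGroup 2 (G m) := by
  intro g
  have h : (g * g).u = 0 := by
    simp only [mul_u]
    funext i
    simp only [Pi.add_apply, Pi.zero_apply]
    generalize g.u i = x
    revert x; decide
  obtain ⟨w, hw⟩ := exists_tr _ h
  refine ⟨m + 1 + 1, ?_⟩
  rw [pow_succ', pow_mul, pow_two, hw, ← tr_nsmul]
  apply tr_of_mem
  have := pow_smul_mem_M w
  rwa [← natCast_zsmul, Nat.cast_pow, Nat.cast_ofNat]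

/-- the lattice of translations in a subgroup -/
def lat (H : Subgroup (G m)) : Submodule ℤ (Lam m) :=
  AddSubgroup.toIntSubmodule
    { carrier := {w | tr w ∈ H}
      add_mem' := fun {a b} ha hb => by
        simp only [Set.mem_ofPred_eq, tr_add] at *
        exact H.mul_mem ha hb
      zero_mem' := by simp only [Set.mem_ofPred_eq, tr_zero]; exact H.one_mem
      neg_mem' := fun {a} ha => by
        simp only [Set.mem_ofPred_eq, tr_neg] at *
        exact H.inv_mem ha }

lemma mem_lat (H : Subgroup (G m)) (w : Lam m) : w ∈ lat H ↔ tr w ∈ H := Iff.rfl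

/-- the image of a subgroup in `S` -/
def top (H : Subgroup (G m)) : Submodule (ZMod 2) (S m) :=
  AddSubgroup.toZModSubmodule 2
    { carrier := {u | ∃ g ∈ H, g.u = u}
      add_mem' := by
        rintro _ _ ⟨g, hg, rfl⟩ ⟨h, hh, rfl⟩
        exact ⟨g * h, H.mul_mem hg hh, rfl⟩
      zero_mem' := ⟨1, H.one_mem, rfl⟩
      neg_mem' := by
        rintro _ ⟨g, hg, rfl⟩
        exact ⟨g⁻¹, H.inv_mem hg, rfl⟩ }

lemma mem_top (H : Subgroup (G m)) (u : S m) : u ∈ top H ↔ ∃ g ∈ H, g.u = u := Iff.rfl

lemma M_le_lat (H : Subgroup (G m)) : M m ≤ lat H := by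
  intro w hw
  rw [mem_lat, tr_of_mem hw]
  exact H.one_mem

lemma le_of_lat_top (H K : Subgroup (G m)) (hKH : K ≤ H) (h1 : lat H ≤ lat K)
    (h2 : top H ≤ top K) : H ≤ K := by
  intro h hh
  obtain ⟨k, hk, e⟩ := (mem_top K _).mp (h2 ((mem_top H _).mpr ⟨h, hh, rfl⟩))
  have h3 : (h * k⁻¹).u = 0 := by simp [e]
  obtain ⟨w, hw⟩ := exists_tr _ h3
  have h4 : tr w ∈ H := hw ▸ H.mul_mem hh (H.inv_mem (hKH hk))
  have h5 : tr w ∈ K := h1 h4
  have : h = tr w * k := by rw [← hw]; simp
  rw [this]; exact K.mul_mem h5 hk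

lemma lat_stable (H : Subgroup (G m)) (h : top H = ⊤) (u : S m) (w : Lam m) (hw : w ∈ lat H) :
    ch u * w ∈ lat H := by
  obtain ⟨g, hg, rfl⟩ := (mem_top H u).mp (h ▸ Submodule.mem_top)
  rw [mem_lat, ← conj_tr]
  exact H.mul_mem (H.mul_mem hg hw) (H.inv_mem hg)

lemma exists_lifts (H : Subgroup (G m)) :
    ∃ g : Fin (Module.finrank (ZMod 2) (top H)) → G m, (∀ i, g i ∈ H) ∧
      ∀ K : Subgroup (G m), (∀ i, g i ∈ K) → top H ≤ top K := by
  have hb : ∀ i, ∃ g ∈ H, g.u = (Module.finBasis (ZMod 2) (top H) i : S m) :=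
    fun i => (mem_top H _).mp (Module.finBasis (ZMod 2) (top H) i).2
  choose g hg hu using hb
  refine ⟨g, hg, fun K hK => ?_⟩
  have h := (Module.finBasis (ZMod 2) (top H)).span_eq
  have h2 := congrArg (Submodule.map (top H).subtype) h
  rw [Submodule.map_span, Submodule.map_top, Submodule.range_subtype, ← Set.range_comp] at h2
  rw [← h2, Submodule.span_le]
  rintro _ ⟨i, rfl⟩
  exact (mem_top K _).mpr ⟨g i, hK i, hu i⟩

theorem proper_gen (H : Subgroup (G m)) (hH : H ≠ ⊤) :
    ∃ s : Finset (G m), Subgroup.closure (s : Set (G m)) = H ∧ s.card < 2 ^ m + m := by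
  classical
  obtain ⟨g, hg, hgK⟩ := exists_lifts H
  have hS : Module.finrank (ZMod 2) (S m) = m := by simp
  -- general assembly
  have asm : ∀ B : Finset (Lam m), (∀ w ∈ B, w ∈ lat H) →
      B.card + Module.finrank (ZMod 2) (top H) < 2 ^ m + m →
      (∀ K : Subgroup (G m), top H ≤ top K → (∀ w ∈ B, w ∈ lat K) → lat H ≤ lat K) →
      ∃ s : Finset (G m), Subgroup.closure (s : Set (G m)) = H ∧ s.card < 2 ^ m + m := by
    intro B hB hc hK
    refine ⟨B.image tr ∪ Finset.univ.image g, ?_, ?_⟩
    · have hle : Subgroup.closure ((B.image tr ∪ Finset.univ.image g : Finset (G m)) :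
          Set (G m)) ≤ H := by
        rw [Subgroup.closure_le]
        intro x hx
        rcases Finset.mem_union.mp hx with hx | hx
        · obtain ⟨w, hw, rfl⟩ := Finset.mem_image.mp hx
          exact hB w hw
        · obtain ⟨i, _, rfl⟩ := Finset.mem_image.mp hx
          exact hg i
      refine le_antisymm hle ?_
      have ht := hgK (Subgroup.closure ((B.image tr ∪ Finset.univ.image g : Finset (G m)) :
          Set (G m))) (fun i => Subgroup.subset_closure (Finset.mem_coe.mpr
            (Finset.mem_union_right _ (Finset.mem_image_of_mem _ (Finset.mem_univ i)))))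
      refine le_of_lat_top _ _ hle (hK _ ht ?_) ht
      intro w hw
      exact Subgroup.subset_closure (Finset.mem_coe.mpr
        (Finset.mem_union_left _ (Finset.mem_image_of_mem _ hw)))
    · refine lt_of_le_of_lt (Finset.card_union_le _ _) (lt_of_le_of_lt ?_ hc)
      refine add_le_add Finset.card_image_le (Finset.card_image_le.trans ?_)
      simp
  by_cases ht : top H = ⊤
  · have hL : lat H ≠ ⊤ := by
      intro hL
      apply hH
      rw [eq_top_iff]
      refine le_of_lat_top _ _ le_top ?_ ?_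
      · rw [hL]; exact le_top
      · rw [ht]; exact le_top
    obtain ⟨B, hB1, hB2, hB3⟩ := key (lat H) (M_le_lat H) (lat_stable H ht) hL
    refine asm B hB2 ?_ ?_
    · have := Submodule.finrank_le (top H)
      omega
    · intro K hK hBK
      refine hB3 _ (M_le_lat K) (lat_stable K ?_) hBK
      rw [eq_top_iff, ← ht]; exact hK
  · obtain ⟨r, hr, b, hb⟩ := exists_family (lat H)
    refine asm (Finset.univ.image b) ?_ ?_ ?_
    · intro w hw
      obtain ⟨i, _, rfl⟩ := Finset.mem_image.mp hw
      exact hb ▸ Submodule.subset_span ⟨i, rfl⟩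
    · have h1 := Submodule.finrank_lt ht
      have h2 : (Finset.univ.image b).card ≤ r := Finset.card_image_le.trans (by simp)
      omega
    · intro K _ hBK
      rw [← hb, Submodule.span_le]
      rintro _ ⟨i, rfl⟩
      exact hBK _ (Finset.mem_image_of_mem _ (Finset.mem_univ i))

/-- reduction mod two -/
def red0 : Lam m →ₗ[ℤ] (X m → ZMod 2) where
  toFun w := fun T => (w T : ZMod 2)
  map_add' v w := by funext T; simp
  map_smul' a w := by funext T; simp

/-- reduction mod two on the quotient -/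
def red : A m →ₗ[ℤ] (X m → ZMod 2) :=
  (M m).liftQ red0 (fun w hw => by
    rw [LinearMap.mem_ker]
    funext T
    exact (ZMod.intCast_zmod_eq_zero_iff_dvd _ 2).mpr (two_dvd_of_mem_M w hw T))

lemma red_act (u : S m) (a : A m) : red (act u a) = red a := by
  obtain ⟨w, rfl⟩ := Submodule.Quotient.mk_surjective _ a
  change red0 (ch u * w) = red0 w
  funext T
  change ((ch u T * w T : ℤ) : ZMod 2) = (w T : ZMod 2)
  have : ((ch u T : ℤ) : ZMod 2) = 1 := by
    have h := (ZMod.intCast_zmod_eq_zero_iff_dvd _ 2).mpr (ch_odd u T)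
    push_cast at h
    exact sub_eq_zero.mp h
  push_cast
  rw [this, one_mul]

/-- the Frattini quotient map -/
def phi (g : G m) : (X m → ZMod 2) × S m := (red g.a, g.u)

lemma phi_mul (g h : G m) : phi (g * h) = phi g + phi h := by
  simp [phi, red_act]

lemma phi_surj : Function.Surjective (phi (m := m)) := by
  rintro ⟨f, u⟩
  refine ⟨⟨pr (fun T => ((f T).val : ℤ)), u⟩, ?_⟩
  refine Prod.ext ?_ rfl
  funext T
  change ((((f T).val : ℕ) : ℤ) : ZMod 2) = f T
  simp

theorem gen_lower (t : Finset (G m)) (ht : Subgroup.closure (t : Set (G m)) = ⊤) :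
    2 ^ m + m ≤ t.card := by
  classical
  have h1 : ∀ g : G m, phi g ∈ Submodule.span (ZMod 2) ((t.image phi : Finset _) : Set _) := by
    intro g
    have hg : g ∈ Subgroup.closure (t : Set (G m)) := ht ▸ Subgroup.mem_top g
    induction hg using Subgroup.closure_induction with
    | mem x hx => exact Submodule.subset_span (Finset.mem_coe.mpr (Finset.mem_image_of_mem _ hx))
    | one =>
      have : phi (1 : G m) = 0 := by simp [phi]
      rw [this]; exact Submodule.zero_mem _
    | mul x y _ _ hx hy => rw [phi_mul]; exact Submodule.add_mem _ hx hy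
    | inv x _ hx =>
      have : phi x⁻¹ = - phi x := by
        have h := phi_mul x⁻¹ x
        have h0 : phi (1 : G m) = 0 := by simp [phi]
        rw [inv_mul_cancel, h0] at h
        exact eq_neg_of_add_eq_zero_left h.symm
      rw [this]; exact Submodule.neg_mem _ hx
  have h2 : Submodule.span (ZMod 2) ((t.image phi : Finset _) : Set ((X m → ZMod 2) × S m)) = ⊤ := by
    rw [eq_top_iff]
    intro v _
    obtain ⟨g, rfl⟩ := phi_surj v
    exact h1 g
  have h3 := finrank_span_finset_le_card (R := ZMod 2) (t.image phi)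
  rw [Set.finrank, h2, finrank_top] at h3
  have h4 : Module.finrank (ZMod 2) ((X m → ZMod 2) × S m) = 2 ^ m + m := by
    simp
  rw [h4] at h3
  exact h3.trans Finset.card_image_le

theorem lcs_mem (i : Fin m) (k : ℕ) :
    tr ((2 : ℤ) ^ k • (Pi.single {i} 1 : Lam m)) ∈
      (⊤ : Subgroup (G m)).lowerCentralSeries k := by
  induction k with
  | zero => exact Subgroup.mem_top _
  | succ k ih =>
    rw [Subgroup.lowerCentralSeries_succ]
    have h := Subgroup.commutator_mem_commutator ih
      (Subgroup.mem_top (⟨0, Pi.single i 1⟩ : G m))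
    have e : ⁅tr ((2 : ℤ) ^ k • (Pi.single {i} 1 : Lam m)), (⟨0, Pi.single i 1⟩ : G m)⁆ =
        tr ((2 : ℤ) ^ (k + 1) • (Pi.single {i} 1 : Lam m)) := by
      rw [commutatorElement_def, mul_assoc, mul_assoc, ← mul_assoc (⟨0, Pi.single i 1⟩ : G m),
        ← tr_neg, conj_tr, ← tr_add]
      congr 1
      rw [ch_single]
      funext T
      by_cases hT : T = {i}
      · subst hT
        simp [xi, pow_succ]
        ring
      · simp [Pi.single_eq_of_ne hT]
    rwa [e] at h

theorem lcs_ne_bot (i : Fin m) (k : ℕ) (hk : k ≤ m) :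
    (⊤ : Subgroup (G m)).lowerCentralSeries k ≠ ⊥ := by
  intro h
  have h1 := lcs_mem i k
  rw [h, Subgroup.mem_bot] at h1
  have h2 := congrArg G.a h1
  exact pow_single_not_mem k hk {i} ((Submodule.Quotient.mk_eq_zero _).mp h2)

end H460Z.Dm
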