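import Mathlib

set_option autoImplicit false

/-! Lattice part of the construction of d-maximal 2-groups of large class. -/

namespace H460Z.Dm

open Finset

/-- the index set: subsets of `Fin m` -/
abbrev X (m : ℕ) := Finset (Fin m)
/-- the ring of integer functions on subsets -/
abbrev Lam (m : ℕ) := X m → ℤ
/-- the elementary abelian group acting -/
abbrev S (m : ℕ) := Fin m → ZMod 2

def sg (a : ZMod 2) : ℤ := if a = 0 then 1 else -1

lemma sg_add (a b : ZMod 2) : sg (a + b) = sg a * sg b := by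
  revert a b; decide

lemma sg_zero : sg 0 = 1 := by decide
lemma sg_one : sg 1 = -1 := by decide

lemma sg_odd (a : ZMod 2) : (2 : ℤ) ∣ sg a - 1 := by
  revert a; decide

variable {m : ℕ}

/-- the sign character -/
def ch (u : S m) : Lam m := fun T => ∏ i ∈ T, sg (u i)

lemma ch_add (u v : S m) : ch (u + v) = ch u * ch v := by
  funext T
  simp [ch, sg_add, Finset.prod_mul_distrib]

lemma ch_zero : ch (0 : S m) = 1 := by
  funext T
  simp [ch, sg_zero]

lemma ch_odd (u : S m) (T : X m) : (2 : ℤ) ∣ ch u T - 1 := by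
  unfold ch
  induction T using Finset.induction_on with
  | empty => simp
  | insert a s ha ih =>
    rw [Finset.prod_insert ha]
    have h1 := sg_odd (u a)
    have : sg (u a) * ∏ i ∈ s, sg (u i) - 1 =
      (sg (u a) - 1) * ∏ i ∈ s, sg (u i) + (∏ i ∈ s, sg (u i) - 1) := by ring
    rw [this]
    exact dvd_add (Dvd.dvd.mul_right h1 _) ih

/-- the coordinate function -/
def xi (i : Fin m) : Lam m := fun T => if i ∈ T then 1 else 0

lemma ch_single (i : Fin m) : ch (Pi.single i 1 : S m) = 1 - 2 * xi i := by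
  funext T
  simp only [ch, xi, Pi.sub_apply, Pi.one_apply, Pi.mul_apply, Pi.ofNat_apply]
  by_cases h : i ∈ T
  · rw [Finset.prod_eq_single i]
    · simp [h, sg_one]
    · intro b _ hb
      simp [Pi.single_eq_of_ne hb, sg_zero]
    · intro h'; exact absurd h h'
  · rw [Finset.prod_eq_one]
    · simp [h]
    · intro b hb
      have : b ≠ i := fun e => h (e ▸ hb)
      simp [Pi.single_eq_of_ne this, sg_zero]

lemma prod_mem (L : Submodule ℤ (Lam m)) (h1 : (1 : Lam m) ∈ L) (f : Fin m → Lam m)
    (hf : ∀ i, ∀ w ∈ L, f i * w ∈ L) (F : Finset (Fin m)) : ∏ i ∈ F, f i ∈ L := by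
  induction F using Finset.induction_on with
  | empty => simpa using h1
  | insert a s ha ih =>
    rw [Finset.prod_insert ha]
    exact hf a _ ih

lemma delta_eq (T : X m) :
    (∏ i : Fin m, (if i ∈ T then xi i else 1 - xi i)) = (Pi.single T 1 : Lam m) := by
  funext U
  rw [Finset.prod_apply]
  by_cases h : U = T
  · subst h
    rw [Pi.single_eq_same]
    apply Finset.prod_eq_one
    intro i _
    by_cases hi : i ∈ U <;> simp [hi, xi]
  · rw [Pi.single_eq_of_ne h]
    have : ∃ i, ¬ (i ∈ U ↔ i ∈ T) := by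
      by_contra hc
      push Not at hc
      exact h (Finset.ext hc)
    obtain ⟨i, hi⟩ := this
    apply Finset.prod_eq_zero (Finset.mem_univ i)
    by_cases h1 : i ∈ T
    · have h2 : i ∉ U := fun h2 => hi ⟨fun _ => h1, fun _ => h2⟩
      simp [h1, h2, xi]
    · have h2 : i ∈ U := by
        by_contra h2
        exact hi ⟨fun h3 => absurd h3 h2, fun h3 => absurd h3 h1⟩
      simp [h1, h2, xi]

lemma eq_top_of_single (L : Submodule ℤ (Lam m)) (h : ∀ T, (Pi.single T 1 : Lam m) ∈ L) :
    L = ⊤ := by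
  rw [eq_top_iff]
  intro w _
  rw [pi_eq_sum_univ' w]
  exact L.sum_mem fun T _ => L.smul_mem _ (h T)

lemma eq_top_of_xi (L : Submodule ℤ (Lam m)) (h1 : (1 : Lam m) ∈ L)
    (hx : ∀ i, ∀ w ∈ L, xi i * w ∈ L) : L = ⊤ := by
  apply eq_top_of_single
  intro T
  rw [← delta_eq]
  apply prod_mem L h1
  intro i w hw
  by_cases h : i ∈ T
  · simpa [h] using hx i w hw
  · simp only [h, if_false, sub_mul, one_mul]
    exact L.sub_mem hw (hx i w hw)

/-- the span of the characters -/
def O (m : ℕ) : Submodule ℤ (Lam m) := Submodule.span ℤ (Set.range (ch (m := m)))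

/-- twice the span of the characters -/
def M (m : ℕ) : Submodule ℤ (Lam m) :=
  Submodule.span ℤ (Set.range (fun u : S m => (2 : ℤ) • ch u))

lemma O_mul (u : S m) (w : Lam m) (hw : w ∈ O m) : ch u * w ∈ O m := by
  induction hw using Submodule.span_induction with
  | mem x hx =>
    obtain ⟨v, rfl⟩ := hx
    rw [← ch_add]
    exact Submodule.subset_span ⟨_, rfl⟩
  | zero => simp
  | add x y _ _ hx hy => rw [mul_add]; exact Submodule.add_mem _ hx hy
  | smul a x _ hx => rw [mul_smul_comm]; exact Submodule.smul_mem _ _ hx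

lemma M_mul (u : S m) (w : Lam m) (hw : w ∈ M m) : ch u * w ∈ M m := by
  induction hw using Submodule.span_induction with
  | mem x hx =>
    obtain ⟨v, rfl⟩ := hx
    rw [mul_smul_comm, ← ch_add]
    exact Submodule.subset_span ⟨_, rfl⟩
  | zero => simp
  | add x y _ _ hx hy => rw [mul_add]; exact Submodule.add_mem _ hx hy
  | smul a x _ hx => rw [mul_smul_comm]; exact Submodule.smul_mem _ _ hx

lemma two_smul_mem_M (w : Lam m) (hw : w ∈ O m) : (2 : ℤ) • w ∈ M m := by
  induction hw using Submodule.span_induction with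
  | mem x hx =>
    obtain ⟨v, rfl⟩ := hx
    exact Submodule.subset_span ⟨_, rfl⟩
  | zero => simp
  | add x y _ _ hx hy => rw [smul_add]; exact Submodule.add_mem _ hx hy
  | smul a x _ hx => rw [smul_comm]; exact Submodule.smul_mem _ _ hx

lemma one_mem_O : (1 : Lam m) ∈ O m := by
  rw [← ch_zero]; exact Submodule.subset_span ⟨_, rfl⟩

lemma pow_single_mem_O (T : X m) : (2 : ℤ) ^ m • (Pi.single T 1 : Lam m) ∈ O m := by
  have : (2 : ℤ) ^ m • (Pi.single T 1 : Lam m) =
      ∏ i : Fin m, ((2 : ℤ) • (if i ∈ T then xi i else 1 - xi i)) := by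
    rw [Finset.prod_smul, delta_eq]
    simp
  rw [this]
  apply prod_mem _ one_mem_O
  intro i w hw
  have h2 := O_mul (Pi.single i 1) w hw
  rw [ch_single] at h2
  by_cases h : i ∈ T
  · have : ((2 : ℤ) • (if i ∈ T then xi i else 1 - xi i)) * w = w - (1 - 2 * xi i) * w := by
      simp only [h, if_true, zsmul_eq_mul]; push_cast; ring
    rw [this]; exact Submodule.sub_mem _ hw h2
  · have : ((2 : ℤ) • (if i ∈ T then xi i else 1 - xi i)) * w = w + (1 - 2 * xi i) * w := by
      simp only [h, if_false, zsmul_eq_mul]; push_cast; ring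
    rw [this]; exact Submodule.add_mem _ hw h2

lemma pow_smul_mem_M (w : Lam m) : (2 : ℤ) ^ (m + 1) • w ∈ M m := by
  have h : (2 : ℤ) ^ m • w ∈ O m := by
    rw [pi_eq_sum_univ' w, Finset.smul_sum]
    apply Submodule.sum_mem
    intro T _
    rw [smul_comm]
    exact Submodule.smul_mem _ _ (pow_single_mem_O T)
  have := two_smul_mem_M _ h
  rwa [smul_smul, ← pow_succ'] at this

lemma sum_dvd_of_mem_M (w : Lam m) (hw : w ∈ M m) : (2 : ℤ) ^ (m + 1) ∣ ∑ T, w T := by
  induction hw using Submodule.span_induction with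
  | mem x hx =>
    obtain ⟨v, rfl⟩ := hx
    have h1 : ∑ T : X m, ch v T = ∏ i : Fin m, (1 + sg (v i)) := by
      rw [Finset.prod_one_add, Finset.powerset_univ]
      rfl
    have h2 : (2 : ℤ) ^ m ∣ ∏ i : Fin m, (1 + sg (v i)) := by
      have : (2 : ℤ) ^ m = ∏ _i : Fin m, (2 : ℤ) := by simp
      rw [this]
      apply Finset.prod_dvd_prod_of_dvd
      intro i _
      have := sg_odd (v i)
      omega
    simp only [Pi.smul_apply, smul_eq_mul, ← Finset.mul_sum]
    rw [h1, pow_succ']
    exact mul_dvd_mul_left _ h2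
  | zero => simp
  | add x y _ _ hx hy =>
    simp only [Pi.add_apply, Finset.sum_add_distrib]; exact dvd_add hx hy
  | smul a x _ hx =>
    simp only [Pi.smul_apply, smul_eq_mul, ← Finset.mul_sum]; exact Dvd.dvd.mul_left hx _

lemma pow_single_not_mem (k : ℕ) (hk : k ≤ m) (T : X m) :
    (2 : ℤ) ^ k • (Pi.single T 1 : Lam m) ∉ M m := by
  intro h
  have := sum_dvd_of_mem_M _ h
  simp only [Pi.smul_apply, smul_eq_mul, ← Finset.mul_sum] at this
  rw [Finset.sum_pi_single', if_pos (Finset.mem_univ _), mul_one] at this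
  have h2 := (pow_dvd_pow_iff (by norm_num : (2 : ℤ) ≠ 0) (by
    intro hu; rcases Int.isUnit_iff.mp hu with h | h <;> norm_num at h)).mp this
  omega

lemma two_dvd_of_mem_M (w : Lam m) (hw : w ∈ M m) (T : X m) : (2 : ℤ) ∣ w T := by
  induction hw using Submodule.span_induction with
  | mem x hx =>
    obtain ⟨v, rfl⟩ := hx
    simp
  | zero => simp
  | add x y _ _ hx hy => exact dvd_add hx hy
  | smul a x _ hx => simp only [Pi.smul_apply, smul_eq_mul]; exact Dvd.dvd.mul_left hx _

/-- every sublattice has a spanning family with at most `2^m` members -/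
lemma exists_family (L : Submodule ℤ (Lam m)) :
    ∃ r : ℕ, r ≤ 2 ^ m ∧ ∃ b : Fin r → Lam m, Submodule.span ℤ (Set.range b) = L := by
  refine ⟨Module.finrank ℤ L, ?_, fun i => (Module.finBasis ℤ L i : Lam m), ?_⟩
  · have := Submodule.finrank_le L
    simpa using this
  · have h := (Module.finBasis ℤ L).span_eq
    have h2 := congrArg (Submodule.map L.subtype) h
    rw [Submodule.map_span, Submodule.map_top, Submodule.range_subtype, ← Set.range_comp] at h2
    exact h2

/-- multiples of `2^k` -/
def D (m k : ℕ) : Submodule ℤ (Lam m) where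
  carrier := {w | ∀ T, (2 : ℤ) ^ k ∣ w T}
  add_mem' := fun ha hb T => dvd_add (ha T) (hb T)
  zero_mem' := fun T => by simp
  smul_mem' := fun a x hx T => by
    simp only [Pi.smul_apply, smul_eq_mul]; exact Dvd.dvd.mul_left (hx T) _

lemma D_le_M : D m (m + 1) ≤ M m := by
  intro w hw
  choose c hc using hw
  have : w = (2 : ℤ) ^ (m + 1) • (c : Lam m) := by
    funext T; simp [hc T]
  rw [this]; exact pow_smul_mem_M _

/-- Key lemma: a proper stable sublattice containing `M` is generated, as a stable sublattice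
containing `M`, by fewer than `2^m` elements. -/
lemma key (L : Submodule ℤ (Lam m)) (hM : M m ≤ L) (hs : ∀ u, ∀ w ∈ L, ch u * w ∈ L)
    (hL : L ≠ ⊤) :
    ∃ B : Finset (Lam m), B.card < 2 ^ m ∧ (∀ w ∈ B, w ∈ L) ∧
      ∀ N : Submodule ℤ (Lam m), M m ≤ N → (∀ u, ∀ w ∈ N, ch u * w ∈ N) →
        (∀ w ∈ B, w ∈ N) → L ≤ N := by
  classical
  obtain ⟨r, hr, b, hb⟩ := exists_family L
  have hbL : ∀ i, b i ∈ L := fun i => hb ▸ Submodule.subset_span ⟨i, rfl⟩
  -- a vector of `L` not divisible by two in `L`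
  have hv : ∃ v, v ∈ L ∧ (∀ y ∈ L, v ≠ (2 : ℤ) • y) ∧
      (v ∈ M m ∨ ∃ u, ∃ w ∈ L, v = w - ch u * w) := by
    by_contra hc
    push Not at hc
    apply hL
    have hinj : ∀ a y : Lam m, (2 : ℤ) • a = (2 : ℤ) • y → a = y := by
      intro a y h
      funext T
      have := congrFun h T
      simp only [Pi.smul_apply, smul_eq_mul] at this
      omega
    apply eq_top_of_xi
    · by_contra h1
      have hm : (2 : ℤ) • (1 : Lam m) ∈ M m := two_smul_mem_M _ one_mem_O
      refine (hc _ (hM hm) ?_).1 hm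
      intro y hy e
      exact h1 (hinj _ _ e ▸ hy)
    · intro i w hw
      by_contra h1
      have e0 : w - ch (Pi.single i 1) * w = (2 : ℤ) • (xi i * w) := by
        rw [ch_single]; simp only [zsmul_eq_mul]; push_cast; ring
      refine (hc (w - ch (Pi.single i 1) * w) (L.sub_mem hw (hs _ _ hw)) ?_).2 _ w hw rfl
      intro y hy e
      rw [e0] at e
      exact h1 (hinj _ _ e ▸ hy)
  obtain ⟨v, hvL, hv2, hv3⟩ := hv
  have hv4 : v ∈ Submodule.span ℤ (Set.range b) := hb ▸ hvL
  obtain ⟨c, hc⟩ := (Submodule.mem_span_range_iff_exists_fun ℤ).mp hv4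
  have hodd : ∃ j, ¬ (2 : ℤ) ∣ c j := by
    by_contra h
    push Not at h
    choose e he using h
    apply hv2 (∑ i, e i • b i) (L.sum_mem fun i _ => L.smul_mem _ (hbL i))
    rw [← hc, Finset.smul_sum]
    apply Finset.sum_congr rfl
    intro i _
    rw [he i, smul_smul]
  obtain ⟨j, hj⟩ := hodd
  refine ⟨(Finset.univ.erase j).image b, ?_, ?_, ?_⟩
  · refine lt_of_le_of_lt Finset.card_image_le ?_
    rw [Finset.card_erase_of_mem (Finset.mem_univ j)]
    have := j.pos
    simp only [Finset.card_univ, Fintype.card_fin]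
    omega
  · intro w hw
    obtain ⟨i, _, rfl⟩ := Finset.mem_image.mp hw
    exact hbL i
  · intro N hMN hN hB
    have main : ∀ k : ℕ, L ≤ N ⊔ (L ⊓ D m k) := by
      intro k
      induction k with
      | zero =>
        intro w hw
        exact Submodule.mem_sup_right ⟨hw, fun T => by simp⟩
      | succ k ih =>
        have h2 : ∀ w ∈ L, (2 : ℤ) • w ∈ N ⊔ (L ⊓ D m (k + 1)) := by
          intro w hw
          obtain ⟨z, hz, y, hy, rfl⟩ := Submodule.mem_sup.mp (ih hw)
          rw [smul_add]
          refine Submodule.add_mem_sup (N.smul_mem _ hz) ⟨L.smul_mem _ hy.1, fun T => ?_⟩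
          simp only [Pi.smul_apply, smul_eq_mul, pow_succ']
          exact mul_dvd_mul_left _ (hy.2 T)
        have h3 : ∀ u, ∀ w ∈ L, w - ch u * w ∈ N ⊔ (L ⊓ D m (k + 1)) := by
          intro u w hw
          obtain ⟨z, hz, y, hy, rfl⟩ := Submodule.mem_sup.mp (ih hw)
          have : z + y - ch u * (z + y) = (z - ch u * z) + (y - ch u * y) := by ring
          rw [this]
          refine Submodule.add_mem_sup (N.sub_mem hz (hN _ _ hz))
            ⟨L.sub_mem hy.1 (hs _ _ hy.1), fun T => ?_⟩
          have e : (y - ch u * y) T = -((ch u T - 1) * y T) := by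
            simp only [Pi.sub_apply, Pi.mul_apply]; ring
          rw [e, pow_succ', dvd_neg]
          exact mul_dvd_mul (ch_odd u T) (hy.2 T)
        have h4 : v ∈ N ⊔ (L ⊓ D m (k + 1)) := by
          rcases hv3 with h | ⟨u, w, hw, rfl⟩
          · exact Submodule.mem_sup_left (hMN h)
          · exact h3 u w hw
        have h5 : ∀ i, i ≠ j → b i ∈ N ⊔ (L ⊓ D m (k + 1)) := fun i hi =>
          Submodule.mem_sup_left (hB _ (Finset.mem_image.mpr
            ⟨i, Finset.mem_erase.mpr ⟨hi, Finset.mem_univ _⟩, rfl⟩))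
        have h6 : b j ∈ N ⊔ (L ⊓ D m (k + 1)) := by
          obtain ⟨e, he⟩ : ∃ e, c j = 2 * e + 1 := ⟨c j / 2, by omega⟩
          have e1 : b j = v - ∑ i ∈ Finset.univ.erase j, c i • b i - e • ((2 : ℤ) • b j) := by
            rw [← hc, ← Finset.add_sum_erase _ _ (Finset.mem_univ j), he]
            simp only [add_smul, one_smul, smul_smul, mul_comm e]
            abel
          rw [e1]
          refine Submodule.sub_mem _ (Submodule.sub_mem _ h4 ?_)
            (Submodule.smul_mem _ _ (h2 _ (hbL j)))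
          exact Submodule.sum_mem _ fun i hi =>
            Submodule.smul_mem _ _ (h5 i (Finset.mem_erase.mp hi).1)
        conv_lhs => rw [← hb]
        rw [Submodule.span_le]
        rintro _ ⟨i, rfl⟩
        by_cases hi : i = j
        · rw [hi]; exact h6
        · exact h5 i hi
    refine (main (m + 1)).trans (sup_le le_rfl ?_)
    exact inf_le_right.trans (D_le_M.trans hMN)

end H460Z.Dm
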