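import Pool.Agent.H668Z.SC.Cfg

set_option autoImplicit false

/-! Adding an orbit of edges to a fine hyperbolic graph. -/

namespace H460Z.ScAdd

open Pool.Agent.H668Z.SC Pool.Agent.H668Z.SC.GS

variable {G V : Type} [Group G] [MulAction G V] {X : GS V}

lemma pr_finite {h : ℕ} (hf : X.Four h) (hF : X.Fine) (c y : V) : {u | X.Pr c y u}.Finite := by
  by_cases hy : y = c
  · subst hy
    refine Set.Finite.subset Set.finite_empty fun u hu => ?_
    have := hu.2
    rw [X.d_self] at this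
    omega
  · obtain ⟨u0, hu0⟩ := exists_pr (X := X) hy
    refine (hF c u0 (16 * h + 4) hu0.1).subset fun u hu => ⟨hu.1, ?_⟩
    refine hf.dle (a := y) (b := y) ?_ u0 u hu0 hu
    unfold GS.Btw
    have := d_pos (X := X) hy
    rw [X.d_self]
    omega

lemma btw_finite {h : ℕ} (hf : X.Four h) (hF : X.Fine) (a b : V) : {z | X.Btw a z b}.Finite := by
  generalize hn : X.d a b = n
  induction n generalizing a with
  | zero =>
    refine (Set.finite_singleton a).subset fun z hz => ?_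
    have hz' : X.d a z + X.d z b = X.d a b := hz
    exact (X.eq_of_d a z (by omega)).symm
  | succ n ih =>
    refine ((Set.finite_singleton a).union ((pr_finite hf hF a b).biUnion
      (t := fun u => {z | X.Btw u z b}) fun u hu => ih u ?_)).subset fun z hz => ?_
    · have := hu.2; omega
    · by_cases hza : z = a
      · exact Or.inl hza
      · obtain ⟨u, hu⟩ := exists_pr (X := X) hza
        have hub := pr_of_btw hz hu
        refine Or.inr (Set.mem_biUnion hub ?_)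
        have h1 := hu.2
        have h2 := hub.2
        have hz' : X.d a z + X.d z b = X.d a b := hz
        show X.d u z + X.d z b = X.d u b
        omega

lemma exists_geo (x y : V) : ∃ (N : ℕ) (ζ : ℕ → V), ζ 0 = x ∧ ζ N = y ∧
    (∀ s, s ≤ N → X.Btw x (ζ s) y) ∧ ∀ s, s < N → X.d (ζ s) (ζ (s + 1)) ≤ 1 := by
  generalize hn : X.d x y = n
  induction n generalizing x with
  | zero =>
    have := X.eq_of_d _ _ hn
    subst this
    exact ⟨0, fun _ => x, rfl, rfl, fun _ _ => btw_left _ _, fun s hs => by omega⟩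
  | succ n ih =>
    obtain ⟨z, h1, h2⟩ := X.step x y n hn
    obtain ⟨N, ζ, h3, h4, h5, h6⟩ := ih z h2
    refine ⟨N + 1, fun s => Nat.casesOn s x ζ, rfl, h4, ?_, ?_⟩
    · intro s hs
      cases s with
      | zero => exact btw_left _ _
      | succ s =>
        have h7 := h5 s (by omega)
        have t1 := X.tri x z (ζ s)
        have t2 := X.tri x (ζ s) y
        unfold GS.Btw at *
        show X.d x (ζ s) + X.d (ζ s) y = X.d x y
        omega
    · intro s hs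
      cases s with
      | zero => show X.d x (ζ 0) ≤ 1; rw [h3]; omega
      | succ s => exact h6 s (by omega)

/-- the new adjacency relation -/
def rel (G : Type) [Group G] [MulAction G V] (X : GS V) (a0 b0 : V) (a b : V) : Prop :=
  X.d a b = 1 ∨ ∃ h : G, (a = h • a0 ∧ b = h • b0) ∨ (b = h • a0 ∧ a = h • b0)

lemma rel_symm (a0 b0 a b : V) (h : rel G X a0 b0 a b) : rel G X a0 b0 b a := by
  rcases h with h | ⟨k, h | h⟩
  · left; rw [X.symm]; exact h
  · exact Or.inr ⟨k, Or.inr h⟩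
  · exact Or.inr ⟨k, Or.inl h⟩

lemma rel_conn (a0 b0 x y : V) : ∃ n, Reach (rel G X a0 b0) n x y := by
  generalize hn : X.d x y = n
  induction n generalizing x with
  | zero => rw [X.eq_of_d _ _ hn]; exact ⟨0, Reach.refl _ _⟩
  | succ n ih =>
    obtain ⟨z, h1, h2⟩ := X.step x y n hn
    obtain ⟨m, hm⟩ := ih z h2
    exact ⟨m + 1, Reach.step _ _ z _ (Or.inl h1) hm⟩

/-- the new graph -/
noncomputable def add (G : Type) [Group G] [MulAction G V] (X : GS V) (a0 b0 : V) : GS V :=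
  ofRel (rel G X a0 b0) (rel_symm a0 b0) (rel_conn a0 b0)

lemma add_le_one (a0 b0 x y : V) :
    (add G X a0 b0).d x y ≤ 1 ↔ x = y ∨ rel G X a0 b0 x y := ofRel_le_one _ _ x y

lemma rel_ne {a0 b0 : V} (h0 : a0 ≠ b0) {a b : V} (h : rel G X a0 b0 a b) : a ≠ b := by
  rintro rfl
  rcases h with h | ⟨k, ⟨h1, h2⟩ | ⟨h1, h2⟩⟩
  · rw [X.d_self] at h; omega
  · exact h0 (smul_left_cancel k (h1.symm.trans h2))
  · exact h0 (smul_left_cancel k (h1.symm.trans h2))

lemma add_eq_one {a0 b0 : V} (h0 : a0 ≠ b0) (x y : V) :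
    (add G X a0 b0).d x y = 1 ↔ rel G X a0 b0 x y := by
  constructor
  · intro h
    rcases (add_le_one a0 b0 x y).1 h.le with rfl | h1
    · rw [GS.d_self] at h; omega
    · exact h1
  · intro h
    have h1 := (add_le_one a0 b0 x y).2 (Or.inr h)
    have h2 := d_pos (X := add G X a0 b0) (rel_ne h0 h)
    omega

lemma add_le (a0 b0 x y : V) : (add G X a0 b0).d x y ≤ X.d x y := by
  have := GS.lip_of_adj X (add G X a0 b0) id 1
    (fun a b h => (add_le_one a0 b0 a b).2 (Or.inr (Or.inl h))) x y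
  simpa using this

lemma add_iso (hi : Iso X G) (a0 b0 : V) : Iso (add G X a0 b0) G := by
  have key : ∀ (k : G) (x y : V), (add G X a0 b0).d (k • x) (k • y) ≤ (add G X a0 b0).d x y := by
    intro k x y
    have := GS.lip_of_adj (add G X a0 b0) (add G X a0 b0) (fun v => k • v) 1 (fun a b h => by
      rcases (add_le_one a0 b0 a b).1 h.le with rfl | h1
      · exact (add_le_one a0 b0 _ _).2 (Or.inl rfl)
      · refine (add_le_one a0 b0 _ _).2 (Or.inr ?_)
        rcases h1 with h1 | ⟨m, ⟨rfl, rfl⟩ | ⟨rfl, rfl⟩⟩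
        · left; rw [hi]; exact h1
        · exact Or.inr ⟨k * m, Or.inl ⟨(mul_smul _ _ _).symm, (mul_smul _ _ _).symm⟩⟩
        · exact Or.inr ⟨k * m, Or.inr ⟨(mul_smul _ _ _).symm, (mul_smul _ _ _).symm⟩⟩) x y
    simpa using this
  intro k x y
  refine le_antisymm (key k x y) ?_
  have := key k⁻¹ (k • x) (k • y)
  simpa using this

lemma add_slim (hb : S_bow) (hi : Iso X G) {δ : ℕ} (hs : X.Slim δ) (a0 b0 : V) :
    ∃ δ', (add G X a0 b0).Slim δ' := by
  refine hb V (add G X a0 b0) (fun x y => {z | X.Btw x z y}) (δ + X.d a0 b0 + 1) ?_ ?_ ?_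
  · intro x y w z hz
    obtain ⟨p, hp, hp2⟩ := hs x y w z hz
    exact ⟨p, hp, (add_le a0 b0 z p).trans (by omega)⟩
  · intro x y hxy z hz
    have h1 : X.d x y ≤ X.d a0 b0 + 1 := by
      rcases (add_le_one a0 b0 x y).1 hxy with rfl | h | ⟨m, ⟨rfl, rfl⟩ | ⟨rfl, rfl⟩⟩
      · rw [X.d_self]; omega
      · omega
      · rw [hi]; omega
      · rw [hi, X.symm]; omega
    have h2 : X.d x z + X.d z y = X.d x y := hz
    have h3 := add_le (G := G) (X := X) a0 b0 z x
    have h4 := X.symm z x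
    omega
  · intro x y
    obtain ⟨N, ζ, h1, h2, h3, h4⟩ := exists_geo (X := X) x y
    exact ⟨N, ζ, h1, h2, h3, fun s hs => (add_le a0 b0 _ _).trans (h4 s hs)⟩

/-- flags along the interval -/
def Tset (X : GS V) (a0 b0 : V) : Set (V × V) :=
  {t | X.Btw a0 t.1 b0 ∧ (X.Pr t.1 a0 t.2 ∨ X.Pr t.1 b0 t.2)}

lemma Tset_finite {h : ℕ} (hf : X.Four h) (hF : X.Fine) (a0 b0 : V) : (Tset X a0 b0).Finite := by
  refine ((btw_finite hf hF a0 b0).biUnion
    (t := fun z => (fun u => (z, u)) '' ({u | X.Pr z a0 u} ∪ {u | X.Pr z b0 u}))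
    fun z _ => ((pr_finite hf hF z a0).union (pr_finite hf hF z b0)).image _).subset ?_
  rintro ⟨z, u⟩ ⟨h1, h2⟩
  exact Set.mem_biUnion h1 ⟨u, h2, rfl⟩

lemma Hset_finite (hp : ∀ (g : G) (a b : V), a ≠ b → g • a = a → g • b = b → g = 1)
    {T : Set (V × V)} (hT : T.Finite) {c u : V} (hcu : c ≠ u) :
    {k : G | (k⁻¹ • c, k⁻¹ • u) ∈ T}.Finite := by
  refine Set.Finite.preimage (f := fun k : G => (k⁻¹ • c, k⁻¹ • u)) ?_ hT
  intro k _ m _ e
  simp only [Prod.mk.injEq] at e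
  have h1 : (m * k⁻¹) • c = c := by rw [mul_smul, e.1, smul_inv_smul]
  have h2 : (m * k⁻¹) • u = u := by rw [mul_smul, e.2, smul_inv_smul]
  exact (mul_inv_eq_one.1 (hp _ _ _ hcu h1 h2)).symm

lemma add_fine (hi : Iso X G) {h : ℕ} (hf : X.Four h) (hF : X.Fine)
    (hp : ∀ (g : G) (a b : V), a ≠ b → g • a = a → g • b = b → g = 1) {a0 b0 : V}
    (h0 : a0 ≠ b0) : (add G X a0 b0).Fine := by
  intro c y n hcy
  have hT := Tset_finite hf hF a0 b0
  have hne : ∀ u, X.d c u = 1 → c ≠ u := by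
    rintro u hu rfl
    rw [X.d_self] at hu; omega
  let ρ : V → Set V := fun u => {u' | X.d c u' = 1 ∧ (X.Av c (16 * h + 4) u u' ∨
    ∃ k : G, (k⁻¹ • c, k⁻¹ • u) ∈ Tset X a0 b0 ∧ (k⁻¹ • c, k⁻¹ • u') ∈ Tset X a0 b0)}
  have hρ : ∀ u, X.d c u = 1 → (ρ u).Finite := by
    intro u hu
    refine ((hF c u (16 * h + 4) hu).union ((Hset_finite hp hT (hne u hu)).biUnion
      (t := fun k : G => (fun t : V × V => k • t.2) '' Tset X a0 b0)
      fun k _ => hT.image _)).subset ?_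
    rintro u' ⟨h1, h2 | ⟨k, h2, h3⟩⟩
    · exact Or.inl ⟨h1, h2⟩
    · exact Or.inr (Set.mem_biUnion h2 ⟨_, h3, smul_inv_smul _ _⟩)
  have hstep : ∀ y y' u u', y ≠ c → y' ≠ c → (add G X a0 b0).d y y' ≤ 1 → X.Pr c y u →
      X.Pr c y' u' → u' ∈ ρ u := by
    intro y y' u u' hy hy' hd hu hu'
    refine ⟨hu'.1, ?_⟩
    by_cases hB : X.Btw y c y'
    · right
      have p1 := d_pos (X := X) hy
      have p2 := d_pos (X := X) hy'.symm
      have hB' : X.d y c + X.d c y' = X.d y y' := hB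
      rcases (add_le_one a0 b0 y y').1 hd with rfl | h1 | ⟨k, ⟨rfl, rfl⟩ | ⟨rfl, rfl⟩⟩
      · rw [X.d_self] at hB'; omega
      · omega
      · have b1 : X.Btw a0 (k⁻¹ • c) b0 := by rw [← hi.btw k, smul_inv_smul]; exact hB
        refine ⟨k, ⟨b1, Or.inl ?_⟩, ⟨b1, Or.inr ?_⟩⟩
        · rw [← hi.pr k, smul_inv_smul, smul_inv_smul]; exact hu
        · rw [← hi.pr k, smul_inv_smul, smul_inv_smul]; exact hu'
      · have b1 : X.Btw a0 (k⁻¹ • c) b0 := by rw [← hi.btw k, smul_inv_smul]; exact hB.symm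
        refine ⟨k, ⟨b1, Or.inr ?_⟩, ⟨b1, Or.inl ?_⟩⟩
        · rw [← hi.pr k, smul_inv_smul, smul_inv_smul]; exact hu
        · rw [← hi.pr k, smul_inv_smul, smul_inv_smul]; exact hu'
    · exact Or.inl (hf.dle hB u u' hu hu')
  have hB : ∀ (n : ℕ) (u : V), X.d c u = 1 →
      {u' | ∃ y w, X.Pr c y u ∧ (add G X a0 b0).Av c n y w ∧ X.Pr c w u'}.Finite := by
    intro n
    induction n with
    | zero =>
      intro u hu
      refine (hρ u hu).subset ?_
      rintro u' ⟨y, w, h1, h2, h3⟩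
      cases h2 with
      | refl _ _ h4 => exact hstep y y u u' h4 h4 (by rw [GS.d_self]; omega) h1 h3
    | succ n ih =>
      intro u hu
      refine ((hρ u hu).union ((hρ u hu).biUnion fun u1 hu1 => ih u1 hu1.1)).subset ?_
      rintro u' ⟨y, w, h1, h2, h3⟩
      cases h2 with
      | refl _ _ h4 => exact Or.inl (hstep y y u u' h4 h4 (by rw [GS.d_self]; omega) h1 h3)
      | step _ _ z _ h4 h5 h6 =>
        obtain ⟨u1, hu1⟩ := exists_pr (X := X) h6.ne_left
        exact Or.inr (Set.mem_biUnion (hstep y z u u1 h4 h6.ne_left h5 h1 hu1)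
          ⟨z, w, hu1, h6, h3⟩)
  have hN : ∀ u', X.d c u' = 1 → {w | rel G X a0 b0 c w ∧ X.Pr c w u'}.Finite := by
    intro u' hu'
    have hH := Hset_finite hp hT (hne u' hu')
    refine ((Set.finite_singleton u').union ((hH.image fun k : G => k • b0).union
      (hH.image fun k : G => k • a0))).subset ?_
    rintro w ⟨h1 | ⟨k, ⟨h1, rfl⟩ | ⟨rfl, h1⟩⟩, h2⟩
    · left
      have := h2.2
      exact (X.eq_of_d u' w (by omega)).symm
    · refine Or.inr (Or.inl ⟨k, ⟨?_, Or.inr ?_⟩, rfl⟩)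
      · rw [h1, inv_smul_smul]; exact btw_left _ _
      · rw [← hi.pr k, smul_inv_smul, smul_inv_smul]; exact h2
    · refine Or.inr (Or.inr ⟨k, ⟨?_, Or.inl ?_⟩, rfl⟩)
      · rw [h1, inv_smul_smul]; exact btw_right _ _
      · rw [← hi.pr k, smul_inv_smul, smul_inv_smul]; exact h2
  have hyc : y ≠ c := by
    rintro rfl
    rw [GS.d_self] at hcy; omega
  obtain ⟨u0, hu0⟩ := exists_pr (X := X) hyc
  refine ((hB n u0 hu0.1).biUnion (t := fun u' => {w | rel G X a0 b0 c w ∧ X.Pr c w u'})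
    fun u' hu' => ?_).subset ?_
  · obtain ⟨_, _, _, _, h3⟩ := hu'
    exact hN u' h3.1
  · rintro w ⟨h1, h2⟩
    obtain ⟨u', hu'⟩ := exists_pr (X := X) h2.ne_right
    exact Set.mem_biUnion (s := {u' | ∃ y w, X.Pr c y u0 ∧ (add G X a0 b0).Av c n y w ∧
      X.Pr c w u'}) ⟨y, w, hu0, h2, hu'⟩ ⟨(add_eq_one h0 c w).1 h1, hu'⟩

theorem thm_add (hb : S_bow) : S_add := by
  intro G V _ _ X p q o hc g
  have h0 : p ≠ g • q := fun e => hc.pq g⁻¹ (by rw [e, inv_smul_smul])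
  obtain ⟨δ, hδ⟩ := hc.hyp
  refine ⟨add G X p (g • q), ⟨add_iso hc.iso _ _, add_slim hb hc.iso hδ _ _,
    add_fine hc.iso hδ.four hc.fine hc.pair h0, ?_, hc.pair, ?_, ?_, ?_, hc.pq, hc.po, hc.qo⟩, ?_⟩
  · obtain ⟨S, hS, hS2⟩ := hc.cof
    refine ⟨insert (p, g • q) (insert (g • q, p) S), (hS.insert _).insert _, fun a b hab => ?_⟩
    rcases (add_eq_one h0 a b).1 hab with h | ⟨k, ⟨rfl, rfl⟩ | ⟨rfl, rfl⟩⟩
    · obtain ⟨k, hk⟩ := hS2 a b h
      exact ⟨k, Or.inr (Or.inr hk)⟩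
    · exact ⟨k⁻¹, Or.inl (by rw [inv_smul_smul, inv_smul_smul])⟩
    · exact ⟨k⁻¹, Or.inr (Or.inl (by rw [inv_smul_smul, inv_smul_smul]))⟩
  · exact (add_eq_one h0 p q).2 (Or.inl hc.adj)
  · intro k hk
    rcases (add_eq_one h0 _ _).1 hk with h | ⟨m, ⟨_, h⟩ | ⟨_, h⟩⟩
    · exact hc.indP k h
    · exact hc.pq (g⁻¹ * m⁻¹ * k) (by rw [mul_smul, mul_smul, h, inv_smul_smul, inv_smul_smul])
    · refine hc.pq (g⁻¹ * m⁻¹) ?_
      rw [mul_smul]
      conv_lhs => rw [h]
      rw [inv_smul_smul, inv_smul_smul]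
  · intro k hk
    rcases (add_eq_one h0 _ _).1 hk with h | ⟨m, ⟨h, _⟩ | ⟨h, _⟩⟩
    · exact hc.indQ k h
    · exact hc.pq m h.symm
    · exact hc.pq (k⁻¹ * m) (by rw [mul_smul, ← h, inv_smul_smul])
  · exact (add_eq_one h0 _ _).2 (Or.inr ⟨1, Or.inl ⟨(one_smul _ _).symm, (one_smul _ _).symm⟩⟩)

end H460Z.ScAdd
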