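import Mathlib

/-!
Definitions for the Euclidean distortion of a union of two spaces.
-/

namespace H460Z.UnDefs

open scoped NNReal

universe u v

/-- The separable Hilbert space of square summable real sequences. -/
abbrev L2 : Type := lp (fun _ : ℕ => ℝ) 2

/-- `X` embeds into `Y` with distortion at most `D`: some map `f` has a Lipschitz constant `K`,
its inverse on the image has a Lipschitz constant `K'` (so `f` is injective), and `K * K' ≤ D`. -/
def EmbedsWith (X : Type u) [MetricSpace X] (Y : Type v) [MetricSpace Y] (D : ℝ) : Prop :=
  ∃ (f : X → Y) (K K' : ℝ≥0), LipschitzWith K f ∧ AntilipschitzWith K' f ∧ (K : ℝ) * K' ≤ D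

/-- `X` embeds with distortion at most `D` into Euclidean space of some finite dimension `a`, or
into the separable Hilbert space. -/
def EmbedsEuc (X : Type u) [MetricSpace X] (D : ℝ) : Prop :=
  (∃ a : ℕ, EmbedsWith X (EuclideanSpace ℝ (Fin a)) D) ∨ EmbedsWith X L2 D

/-- Every metric space that is the union of a subspace with Euclidean distortion at most `DA` and
a subspace with Euclidean distortion at most `DB` embeds into the separable Hilbert space with
distortion at most `D`. -/
def UnionProp (DA DB D : ℝ) : Prop :=
  ∀ (X : Type u) [MetricSpace X] (A B : Set X), A ∪ B = Set.univ →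
    EmbedsEuc A DA → EmbedsEuc B DB → EmbedsWith X L2 D

/-- The quantity of the problem: the least `D` with the union property. -/
noncomputable def calD (DA DB : ℝ) : ℝ := sInf {D | UnionProp.{u} DA DB D}

end H460Z.UnDefs
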