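import Pool.Agent.Helper799.UnionL.Euclid

/-!
A two-jump transform of the Hamming distance, and the fibre concentration estimates.
-/

namespace H460Z.Un

open H799L
open scoped BigOperators

noncomputable section

universe u v

/-- Square of the transformed distance. -/
def Ph (s t e h : ℝ) : ℝ := max (min (h ^ 2) (s * h)) (min (s * h ^ 2 / e) (s * t * h))

/-- The transformed distance. -/
def Fn (s t e h : ℝ) : ℝ := √(Ph s t e h)

section
variable {s t e : ℝ}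

lemma Ph_nonneg (hs : 1 ≤ s) {h : ℝ} (hh : 0 ≤ h) : 0 ≤ Ph s t e h :=
  le_max_of_le_left (le_min (sq_nonneg _) (mul_nonneg (by linarith) hh))

lemma Ph_zero : Ph s t e 0 = 0 := by simp [Ph]

lemma Ph_mono (hs : 1 ≤ s) (ht : 1 ≤ t) (he : 0 < e) {a b : ℝ} (ha : 0 ≤ a) (hab : a ≤ b) :
    Ph s t e a ≤ Ph s t e b := by
  have h1 : a ^ 2 ≤ b ^ 2 := pow_le_pow_left₀ ha hab 2
  have hs0 : 0 ≤ s := by linarith
  have ht0 : 0 ≤ t := by linarith
  refine max_le_max (min_le_min h1 (by gcongr)) (min_le_min ?_ (by gcongr))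
  gcongr

lemma Ph_ratio (hs : 1 ≤ s) (ht : 1 ≤ t) {a b : ℝ} (ha : 0 ≤ a) (hab : a ≤ b) :
    a ^ 2 * Ph s t e b ≤ b ^ 2 * Ph s t e a := by
  have hs0 : 0 ≤ s := by linarith
  have ht0 : 0 ≤ t := by linarith
  have hb : 0 ≤ b := ha.trans hab
  have key : ∀ c : ℝ, 0 ≤ c → a ^ 2 * (c * b) ≤ b ^ 2 * (c * a) := by
    intro c hc
    have : a ^ 2 * (c * b) = (c * a * b) * a := by ring
    have h2 : b ^ 2 * (c * a) = (c * a * b) * b := by ring
    rw [this, h2]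
    exact mul_le_mul_of_nonneg_left hab (by positivity)
  unfold Ph
  rw [mul_max_of_nonneg _ _ (sq_nonneg a), mul_max_of_nonneg _ _ (sq_nonneg b),
    mul_min_of_nonneg _ _ (sq_nonneg a), mul_min_of_nonneg _ _ (sq_nonneg a),
    mul_min_of_nonneg _ _ (sq_nonneg b), mul_min_of_nonneg _ _ (sq_nonneg b)]
  refine max_le_max (min_le_min (le_of_eq (by ring)) (key s hs0))
    (min_le_min (le_of_eq (by ring)) (key (s * t) (by positivity)))

lemma Ph_ge (hs : 1 ≤ s) {h : ℝ} (hh : 1 ≤ h) : h ≤ Ph s t e h :=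
  le_max_of_le_left (le_min (by nlinarith) (by nlinarith))

lemma Ph_ge_s (hs : 1 ≤ s) {h : ℝ} (hh : s ≤ h) : s * h ≤ Ph s t e h :=
  le_max_of_le_left (le_min (by nlinarith) le_rfl)

lemma Ph_le_st (hs : 1 ≤ s) (ht : 1 ≤ t) {h : ℝ} (hh : 0 ≤ h) : Ph s t e h ≤ s * t * h := by
  refine max_le ((min_le_right _ _).trans ?_) (min_le_right _ _)
  have : 0 ≤ s * h := mul_nonneg (by linarith) hh
  nlinarith

lemma Ph_le_small (hs : 1 ≤ s) (he : 0 < e) {h c : ℝ} (hh : 0 ≤ h) (hc : 1 ≤ c)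
    (hhe : h ≤ c * e) : Ph s t e h ≤ c * s * h := by
  have h0 : 0 ≤ s * h := mul_nonneg (by linarith) hh
  refine max_le ((min_le_right _ _).trans (by nlinarith)) ((min_le_left _ _).trans ?_)
  rw [div_le_iff₀ he]
  nlinarith

lemma Ph_two (hs : 1 ≤ s) (he : 0 < e) (hse : s ≤ e) {h : ℝ} (hh : 0 ≤ h) (h2 : h ≤ 2) :
    Ph s t e h ≤ 4 := by
  have h4 : h ^ 2 ≤ 4 := by nlinarith
  refine max_le ((min_le_left _ _).trans h4) ((min_le_left _ _).trans ?_)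
  rw [div_le_iff₀ he]
  nlinarith [sq_nonneg h]

lemma Ph_lower (hs : 1 ≤ s) (ht : 1 ≤ t) (he : 0 < e) (h : ℝ) :
    s * t * h - s * t ^ 2 * e / 4 ≤ Ph s t e h := by
  have hs0 : 0 ≤ s := by linarith
  refine le_max_of_le_right (le_min ?_ ?_)
  · rw [le_div_iff₀ he]
    have := mul_nonneg hs0 (sq_nonneg (h - t * e / 2))
    nlinarith
  · have : 0 ≤ s * t ^ 2 * e / 4 := by positivity
    linarith

lemma Ph_lower' (hs : 1 ≤ s) (h : ℝ) : s * h - s ^ 2 / 4 ≤ Ph s t e h := by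
  refine le_max_of_le_left (le_min ?_ ?_)
  · nlinarith [sq_nonneg (h - s / 2)]
  · nlinarith [sq_nonneg s]

lemma Fn_nonneg (h : ℝ) : 0 ≤ Fn s t e h := Real.sqrt_nonneg _

lemma Fn_sq (hs : 1 ≤ s) {h : ℝ} (hh : 0 ≤ h) : Fn s t e h ^ 2 = Ph s t e h :=
  Real.sq_sqrt (Ph_nonneg hs hh)

lemma Fn_zero : Fn s t e 0 = 0 := by rw [Fn, Ph_zero, Real.sqrt_zero]

lemma Fn_mono (hs : 1 ≤ s) (ht : 1 ≤ t) (he : 0 < e) {a b : ℝ} (ha : 0 ≤ a) (hab : a ≤ b) :
    Fn s t e a ≤ Fn s t e b := Real.sqrt_le_sqrt (Ph_mono hs ht he ha hab)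

lemma Fn_ratio (hs : 1 ≤ s) (ht : 1 ≤ t) {a b : ℝ} (ha : 0 ≤ a) (hab : a ≤ b) :
    a * Fn s t e b ≤ b * Fn s t e a := by
  have hb : 0 ≤ b := ha.trans hab
  refine le_of_sq_le_sq ?_ (mul_nonneg hb (Fn_nonneg _))
  rw [mul_pow, mul_pow, Fn_sq hs ha, Fn_sq hs hb]
  exact Ph_ratio hs ht ha hab

lemma Fn_add (hs : 1 ≤ s) (ht : 1 ≤ t) {a b : ℝ} (ha : 0 ≤ a) (hb : 0 ≤ b) :
    Fn s t e (a + b) ≤ Fn s t e a + Fn s t e b := by
  rcases (add_nonneg ha hb).eq_or_lt with h0 | h0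
  · rw [← h0, Fn_zero]
    exact add_nonneg (Fn_nonneg _) (Fn_nonneg _)
  · have h1 := Fn_ratio (e := e) hs ht ha (show a ≤ a + b by linarith)
    have h2 := Fn_ratio (e := e) hs ht hb (show b ≤ a + b by linarith)
    refine le_of_mul_le_mul_left ?_ h0
    nlinarith

lemma Fn_le_of_sq {h c : ℝ} (hc : 0 ≤ c) (hh : Ph s t e h ≤ c ^ 2) : Fn s t e h ≤ c :=
  Real.sqrt_le_iff.mpr ⟨hc, hh⟩

end

lemma hd_cases {G : Type u} {Z : Type v} [Fintype G] (x y : G → Z) :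
    x = y ∨ 1 ≤ hd x y := by
  by_cases h : hd x y = 0
  · exact Or.inl (hd_eq_zero h)
  · right
    unfold hd at h ⊢
    exact Nat.one_le_cast.mpr (Nat.one_le_iff_ne_zero.mpr (Nat.cast_ne_zero.mp h))

lemma Fn_tri {G : Type u} {Z : Type v} [Fintype G] {s t e : ℝ} (hs : 1 ≤ s) (ht : 1 ≤ t)
    (he : 0 < e) (x y z : G → Z) :
    Fn s t e (hd x z) ≤ Fn s t e (hd x y) + Fn s t e (hd y z) :=
  (Fn_mono hs ht he (hd_nonneg _ _) (hd_tri x y z)).trans
    (Fn_add hs ht (hd_nonneg _ _) (hd_nonneg _ _))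

lemma eq_of_Fn_le {G : Type u} {Z : Type v} [Fintype G] {s t e : ℝ} (hs : 1 ≤ s)
    {x y : G → Z} (h : Fn s t e (hd x y) ≤ 0) : x = y := by
  rcases hd_cases x y with h1 | h1
  · exact h1
  · exfalso
    have h2 := Ph_ge (t := t) (e := e) hs h1
    have h3 := Fn_sq (t := t) (e := e) hs (hd_nonneg x y)
    have h4 : Fn s t e (hd x y) = 0 := le_antisymm h (Fn_nonneg _)
    rw [h4] at h3
    linarith

variable {E : Type*} [NormedAddCommGroup E] [InnerProductSpace ℝ E]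

/-- Efron-Stein with single coordinates. -/
lemma es_one {G : Type u} {Z : Type v} [Fintype G] [DecidableEq G] [Fintype Z] [Nonempty Z]
    (ψ : (G → Z) → E) {c : ℝ} (h : ∀ x y, hd x y ≤ 1 → ‖ψ x - ψ y‖ ≤ c) :
    (av fun x => av fun y => ‖ψ x - ψ y‖ ^ 2) ≤ Fintype.card G * c ^ 2 := by
  classical
  have h1 := En_biUnion ψ (fun g : G => ({g} : Finset G))
    (fun i j hij => Finset.disjoint_singleton.mpr hij) Finset.univ
  have h2 : (Finset.univ : Finset G).biUnion (fun g => ({g} : Finset G)) = Finset.univ := by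
    ext g; simp
  rw [h2, En_univ] at h1
  refine h1.trans ?_
  have h3 : ∀ g : G, En ψ {g} ≤ c ^ 2 := by
    intro g
    refine av_le fun x => av_le fun x' => ?_
    refine pow_le_pow_left₀ (norm_nonneg _) (h _ _ ?_) 2
    unfold hd
    have hsub : (Finset.univ.filter fun i => x i ≠ ({g} : Finset G).piecewise x' x i) ⊆ {g} := by
      intro i hi
      simp only [Finset.mem_filter, Finset.mem_univ, true_and] at hi
      by_contra hcon
      exact hi (by rw [Finset.piecewise_eq_of_notMem _ _ _ hcon])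
    have := Finset.card_le_card hsub
    rw [Finset.card_singleton] at this
    have h5 : ((Finset.univ.filter fun i => x i ≠ ({g} : Finset G).piecewise x' x i).card : ℝ) ≤ 1 := by
      exact_mod_cast this
    convert h5
  refine (Finset.sum_le_sum fun g _ => h3 g).trans (le_of_eq ?_)
  rw [Finset.sum_const, Finset.card_univ, nsmul_eq_mul]

/-- Concentration in one fibre. -/
lemma fibre {G : Type u} [Fintype G] [DecidableEq G] {n : ℕ} [NeZero n]
    (R : (G × Fin n → Bool) → (G × Fin n → Bool)) {δ ρ c₀ c₁ : ℝ} (hδ : 0 ≤ δ)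
    (hc₀ : 0 ≤ c₀) (hc₁ : 0 ≤ c₁)
    (hR : ∀ x, hd x (R x) ≤ δ) (hρ : Fintype.card G + 2 * δ ≤ ρ)
    (p : G × Fin n → Bool) (φ : (G × Fin n → Bool) → E)
    (h0 : ∀ t t', hd (R p) t ≤ ρ → hd (R p) t' ≤ ρ → hd t t' ≤ 2 → ‖φ t - φ t'‖ ≤ c₀)
    (h1 : ∀ t t', hd (R p) t ≤ ρ → hd (R p) t' ≤ ρ → hd t t' ≤ δ → ‖φ t - φ t'‖ ≤ c₁) :
    (av fun q : (G → Fin n) × (G → Bool) =>
      ‖φ (R (upd q.1 q.2 p)) - mean (fun q : (G → Fin n) × (G → Bool) =>
        φ (R (upd q.1 q.2 p)))‖ ^ 2) ≤ (√(Fintype.card G) * c₀ + 2 * c₁) ^ 2 / 2 := by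
  have cl1 : ∀ (s : G → Fin n) (ζ : G → Bool), hd (R p) (upd s ζ p) ≤ ρ := by
    intro s ζ
    have a1 := hd_tri (R p) p (upd s ζ p)
    have a2 := hR p
    rw [hd_comm] at a2
    have a3 := hd_upd_le s ζ p
    linarith
  have cl2 : ∀ (s : G → Fin n) (ζ : G → Bool), hd (R p) (R (upd s ζ p)) ≤ ρ := by
    intro s ζ
    have a1 := hd_tri (R p) p (upd s ζ p)
    have a2 := hR p
    rw [hd_comm] at a2
    have a3 := hd_upd_le s ζ p
    have a4 := hd_tri (R p) (upd s ζ p) (R (upd s ζ p))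
    have a5 := hR (upd s ζ p)
    linarith
  set w : (G → Fin n × Bool) → (G × Fin n → Bool) :=
    fun v => upd (fun g => (v g).1) (fun g => (v g).2) p with hw
  have e1 := es_one (fun v : G → Fin n × Bool => φ (w v)) (c := c₀) (by
    intro v v' hv
    refine h0 _ _ (cl1 _ _) (cl1 _ _) ?_
    have := hd_upd_upd (fun g => (v g).1) (fun g => (v' g).1) (fun g => (v g).2)
      (fun g => (v' g).2) p
    simp only [Prod.mk.eta] at this
    linarith)
  have e2 : (av fun v : G → Fin n × Bool => av fun v' : G → Fin n × Bool =>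
      ‖φ (R (w v)) - φ (R (w v'))‖ ^ 2) ≤ (√(Fintype.card G) * c₀ + 2 * c₁) ^ 2 := by
    rw [← av_prod (fun r : (G → Fin n × Bool) × (G → Fin n × Bool) =>
      ‖φ (R (w r.1)) - φ (R (w r.2))‖ ^ 2)]
    rw [← av_prod (fun r : (G → Fin n × Bool) × (G → Fin n × Bool) =>
      ‖φ (w r.1) - φ (w r.2)‖ ^ 2)] at e1
    refine av_sq_le (y := fun r : (G → Fin n × Bool) × (G → Fin n × Bool) =>
      ‖φ (w r.1) - φ (w r.2)‖) (by positivity) (by positivity) (fun r => norm_nonneg _)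
      (fun r => ?_) ?_
    · have b : ∀ v, ‖φ (w v) - φ (R (w v))‖ ≤ c₁ := fun v =>
        h1 _ _ (cl1 _ _) (cl2 _ _) (hR _)
      have e3 : φ (R (w r.1)) - φ (R (w r.2)) = (φ (R (w r.1)) - φ (w r.1))
          + (φ (w r.1) - φ (w r.2)) + (φ (w r.2) - φ (R (w r.2))) := by abel
      rw [e3]
      refine (norm_add₃_le).trans ?_
      rw [norm_sub_rev (φ (R (w r.1)))]
      have := b r.1
      have := b r.2
      linarith
    · rw [mul_pow, Real.sq_sqrt (Nat.cast_nonneg _)]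
      exact e1
  let e : (G → Fin n × Bool) ≃ (G → Fin n) × (G → Bool) :=
    { toFun := fun v => (fun g => (v g).1, fun g => (v g).2)
      invFun := fun q g => (q.1 g, q.2 g)
      left_inv := fun v => rfl
      right_inv := fun q => rfl }
  have e4 : (av fun q : (G → Fin n) × (G → Bool) => av fun q' : (G → Fin n) × (G → Bool) =>
      ‖φ (R (upd q.1 q.2 p)) - φ (R (upd q'.1 q'.2 p))‖ ^ 2)
      ≤ (√(Fintype.card G) * c₀ + 2 * c₁) ^ 2 := by
    rw [← av_equiv e]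
    refine le_of_eq_of_le ?_ e2
    refine congrArg av (funext fun v => ?_)
    rw [← av_equiv e]
    rfl
  rw [av_av_sub_sq] at e4
  linarith

/-- The two-sided estimate on the diagonal. -/
lemma diag {G : Type u} [Fintype G] [DecidableEq G] {n : ℕ} [NeZero n]
    (R : (G × Fin n → Bool) → (G × Fin n → Bool)) {δ ρ c₀ c₁ c₂ : ℝ} (hδ : 0 ≤ δ)
    (hc₀ : 0 ≤ c₀) (hc₁ : 0 ≤ c₁) (hc₂ : 0 ≤ c₂)
    (hR : ∀ x, hd x (R x) ≤ δ) (hρ : Fintype.card G + 2 * δ ≤ ρ)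
    (f : (G × Fin n → Bool) → (G × Fin n → Bool) → E)
    (hA0 : ∀ p t t', hd (R p) t ≤ ρ → hd (R p) t' ≤ ρ → hd t t' ≤ 2 →
      ‖f (R p) t - f (R p) t'‖ ≤ c₀)
    (hA1 : ∀ p t t', hd (R p) t ≤ ρ → hd (R p) t' ≤ ρ → hd t t' ≤ δ →
      ‖f (R p) t - f (R p) t'‖ ≤ c₁)
    (hA2 : ∀ p t, hd (R p) t ≤ ρ → ‖f (R p) (R p) - f (R p) t‖ ≤ c₂)
    (hB0 : ∀ p t t', hd (R p) t ≤ ρ → hd (R p) t' ≤ ρ → hd t t' ≤ 2 →
      ‖f t (R p) - f t' (R p)‖ ≤ c₀)
    (hB1 : ∀ p t t', hd (R p) t ≤ ρ → hd (R p) t' ≤ ρ → hd t t' ≤ δ →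
      ‖f t (R p) - f t' (R p)‖ ≤ c₁) :
    (av fun x : G × Fin n → Bool => av fun x' : G × Fin n → Bool =>
      ‖f (R x) (R x) - f (R x') (R x')‖ ^ 2)
      ≤ (2 * √n * (√(Fintype.card G) * c₀ + 2 * c₁) + 2 * c₂) ^ 2 := by
  set α : ℝ := √(Fintype.card G) * c₀ + 2 * c₁ with hα
  have hα0 : 0 ≤ α := by positivity
  set ψ₁ : (G × Fin n → Bool) → E := fun x => mean fun q : (G → Fin n) × (G → Bool) =>
    f (R x) (R (upd q.1 q.2 x)) with hψ₁
  set ψ₂ : (G × Fin n → Bool) → E := fun x => mean fun q : (G → Fin n) × (G → Bool) =>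
    f (R (upd q.1 q.2 x)) (R x) with hψ₂
  have v1 : ∀ x, (av fun q : (G → Fin n) × (G → Bool) =>
      ‖f (R x) (R (upd q.1 q.2 x)) - ψ₁ x‖ ^ 2) ≤ α ^ 2 / 2 := fun x =>
    fibre R hδ hc₀ hc₁ hR hρ x (fun t => f (R x) t) (hA0 x) (hA1 x)
  have v2 : ∀ x, (av fun q : (G → Fin n) × (G → Bool) =>
      ‖f (R (upd q.1 q.2 x)) (R x) - ψ₂ x‖ ^ 2) ≤ α ^ 2 / 2 := fun x =>
    fibre R hδ hc₀ hc₁ hR hρ x (fun t => f t (R x)) (hB0 x) (hB1 x)
  have hK : (av fun s : G → Fin n => av fun x : G × Fin n → Bool => av fun ζ : G → Bool =>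
      ‖ψ₁ x - ψ₂ (upd s ζ x)‖ ^ 2) ≤ 2 * α ^ 2 := by
    have hA : (av fun s : G → Fin n => av fun x : G × Fin n → Bool => av fun ζ : G → Bool =>
        ‖f (R x) (R (upd s ζ x)) - ψ₁ x‖ ^ 2) ≤ α ^ 2 / 2 := by
      rw [av_comm]
      refine av_le fun x => ?_
      rw [← av_prod (fun q : (G → Fin n) × (G → Bool) =>
        ‖f (R x) (R (upd q.1 q.2 x)) - ψ₁ x‖ ^ 2)]
      exact v1 x
    have hC : (av fun s : G → Fin n => av fun x : G × Fin n → Bool => av fun ζ : G → Bool =>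
        ‖f (R x) (R (upd s ζ x)) - ψ₂ (upd s ζ x)‖ ^ 2) ≤ α ^ 2 / 2 := by
      have h1 : ∀ s : G → Fin n, (av fun x : G × Fin n → Bool => av fun ζ : G → Bool =>
          ‖f (R x) (R (upd s ζ x)) - ψ₂ (upd s ζ x)‖ ^ 2)
          = av fun x : G × Fin n → Bool => av fun ζ : G → Bool =>
            ‖f (R (upd s ζ x)) (R x) - ψ₂ x‖ ^ 2 := by
        intro s
        rw [av_swp s]
        simp only [upd_upd, upd_res]
      simp only [h1]
      rw [av_comm]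
      refine av_le fun x => ?_
      rw [← av_prod (fun q : (G → Fin n) × (G → Bool) =>
        ‖f (R (upd q.1 q.2 x)) (R x) - ψ₂ x‖ ^ 2)]
      exact v2 x
    calc (av fun s : G → Fin n => av fun x : G × Fin n → Bool => av fun ζ : G → Bool =>
          ‖ψ₁ x - ψ₂ (upd s ζ x)‖ ^ 2)
        ≤ av fun s : G → Fin n => av fun x : G × Fin n → Bool => av fun ζ : G → Bool =>
          (2 * ‖f (R x) (R (upd s ζ x)) - ψ₁ x‖ ^ 2
            + 2 * ‖f (R x) (R (upd s ζ x)) - ψ₂ (upd s ζ x)‖ ^ 2) := by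
          refine av_mono fun s => av_mono fun x => av_mono fun ζ => ?_
          have e1 : ψ₁ x - ψ₂ (upd s ζ x)
              = (ψ₁ x - f (R x) (R (upd s ζ x)))
                + (f (R x) (R (upd s ζ x)) - ψ₂ (upd s ζ x)) := by abel
          rw [e1, norm_sub_rev (f (R x) (R (upd s ζ x))) (ψ₁ x)]
          exact norm_add_sq_le_two _ _
      _ = 2 * (av fun s : G → Fin n => av fun x : G × Fin n → Bool => av fun ζ : G → Bool =>
            ‖f (R x) (R (upd s ζ x)) - ψ₁ x‖ ^ 2)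
          + 2 * (av fun s : G → Fin n => av fun x : G × Fin n → Bool => av fun ζ : G → Bool =>
            ‖f (R x) (R (upd s ζ x)) - ψ₂ (upd s ζ x)‖ ^ 2) := by
          simp only [av_add, av_mul]
      _ ≤ 2 * α ^ 2 := by linarith
  have hpair := pair_bound ψ₁ ψ₂ hK
  have hnn : (0 : ℝ) ≤ n := Nat.cast_nonneg n
  have hψE : (av fun x : G × Fin n → Bool => av fun x' : G × Fin n → Bool =>
      ‖ψ₁ x - ψ₁ x'‖ ^ 2) ≤ (2 * √n * α) ^ 2 := by
    have h2 : 0 ≤ (av fun x : G × Fin n → Bool => av fun x' : G × Fin n → Bool =>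
      ‖ψ₂ x - ψ₂ x'‖ ^ 2) := av_nonneg fun _ => av_nonneg fun _ => sq_nonneg _
    rw [mul_pow, mul_pow, Real.sq_sqrt hnn]
    linarith
  have hcl : ∀ z, ‖f (R z) (R z) - ψ₁ z‖ ≤ c₂ := by
    intro z
    refine norm_sub_mean_le _ _ fun q => hA2 z _ ?_
    have a1 := hd_tri (R z) z (upd q.1 q.2 z)
    have a2 := hR z
    rw [hd_comm] at a2
    have a3 := hd_upd_le q.1 q.2 z
    have a4 := hd_tri (R z) (upd q.1 q.2 z) (R (upd q.1 q.2 z))
    have a5 := hR (upd q.1 q.2 z)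
    linarith
  rw [← av_prod (fun r : (G × Fin n → Bool) × (G × Fin n → Bool) =>
    ‖f (R r.1) (R r.1) - f (R r.2) (R r.2)‖ ^ 2)]
  rw [← av_prod (fun r : (G × Fin n → Bool) × (G × Fin n → Bool) =>
    ‖ψ₁ r.1 - ψ₁ r.2‖ ^ 2)] at hψE
  refine av_sq_le (by positivity) (by positivity) (fun r => norm_nonneg _) (fun r => ?_) hψE
  have e3 : f (R r.1) (R r.1) - f (R r.2) (R r.2)
      = (f (R r.1) (R r.1) - ψ₁ r.1) + (ψ₁ r.1 - ψ₁ r.2)
        + (ψ₁ r.2 - f (R r.2) (R r.2)) := by abel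
  rw [e3]
  refine (norm_add₃_le).trans ?_
  rw [norm_sub_rev (ψ₁ r.2)]
  have := hcl r.1
  have := hcl r.2
  linarith

end

end H460Z.Un
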