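import Pool.Agent.H460Z.UnFun
import Pool.Agent.H460Z.UnDefs

/-!
The lower bound: two pieces of distortion `√(6a)` and `√(6b)` whose union has distortion at
least `√(ab) / 20`.
-/

namespace H460Z.Un

open H799L H460Z.UnDefs
open scoped BigOperators NNReal

noncomputable section

universe u v

/-- Pairs of nearby words one of which lies in the net. -/
def Pt {I : Type u} [Fintype I] (N : Set (I → Bool)) (ρ : ℝ) : Type u :=
  {p : (I → Bool) × (I → Bool) //
    (p.1 ∈ N ∧ hd p.1 p.2 ≤ ρ) ∨ (p.2 ∈ N ∧ hd p.2 p.1 ≤ ρ)}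

/-- The metric on pairs. -/
@[reducible] def mPt {I : Type u} [Fintype I] (N : Set (I → Bool)) (ρ : ℝ) {a b e : ℝ}
    (ha : 1 ≤ a) (hb : 1 ≤ b) (he : 0 < e) : MetricSpace (Pt N ρ) where
  dist x y := max (Fn b a e (hd x.1.1 y.1.1)) (Fn a b e (hd x.1.2 y.1.2))
  dist_self x := by rw [hd_self, hd_self, Fn_zero, Fn_zero, max_self]
  dist_comm x y := by rw [hd_comm x.1.1, hd_comm x.1.2]
  dist_triangle x y z := by
    refine max_le ((Fn_tri hb ha he _ y.1.1 _).trans ?_) ((Fn_tri ha hb he _ y.1.2 _).trans ?_)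
    · exact add_le_add (le_max_left _ _) (le_max_left _ _)
    · exact add_le_add (le_max_right _ _) (le_max_right _ _)
  eq_of_dist_eq_zero := by
    intro x y h
    have h1 := eq_of_Fn_le hb ((le_max_left _ _).trans h.le)
    have h2 := eq_of_Fn_le ha ((le_max_right _ _).trans h.le)
    exact Subtype.ext (Prod.ext h1 h2)

lemma num_embed {a b e h₁ h₂ : ℝ} (ha : 1 ≤ a) (hb : 1 ≤ b) (he : 0 < e)
    (k₁ : h₁ = 0 ∨ b ≤ h₁) (k₂ : h₂ = 0 ∨ 1 ≤ h₂) (k : h₂ ≤ h₁ + 2 * e) :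
    max (Fn b a e h₁) (Fn a b e h₂) ^ 2 ≤ 2 * a * b * h₁ + 4 * a * h₂ ∧
      2 * a * b * h₁ + 4 * a * h₂ ≤ 6 * a * max (Fn b a e h₁) (Fn a b e h₂) ^ 2 := by
  have p₁ : 0 ≤ h₁ := by rcases k₁ with h | h <;> linarith
  have p₂ : 0 ≤ h₂ := by rcases k₂ with h | h <;> linarith
  have hab : 0 ≤ a * b * h₁ := by positivity
  have hah : 0 ≤ a * h₂ := by positivity
  have s₁ := Fn_sq (t := a) (e := e) hb p₁
  have s₂ := Fn_sq (t := b) (e := e) ha p₂
  have n₁ := Fn_nonneg (s := b) (t := a) (e := e) h₁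
  have n₂ := Fn_nonneg (s := a) (t := b) (e := e) h₂
  constructor
  · have u₁ : Fn b a e h₁ ^ 2 ≤ 2 * a * b * h₁ + 4 * a * h₂ := by
      have := Ph_le_st (e := e) hb ha p₁
      rw [s₁]
      nlinarith
    have u₂ : Fn a b e h₂ ^ 2 ≤ 2 * a * b * h₁ + 4 * a * h₂ := by
      rw [s₂]
      by_cases hc : h₂ ≤ 4 * e
      · have := Ph_le_small (t := b) ha he p₂ (by norm_num : (1 : ℝ) ≤ 4) hc
        nlinarith
      · have := Ph_le_st (e := e) ha hb p₂
        have h3 : h₂ ≤ 2 * h₁ := by linarith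
        have h4 : a * b * h₂ ≤ a * b * (2 * h₁) :=
          mul_le_mul_of_nonneg_left h3 (by positivity)
        nlinarith
    rcases le_total (Fn b a e h₁) (Fn a b e h₂) with h | h
    · rw [max_eq_right h]; exact u₂
    · rw [max_eq_left h]; exact u₁
  · set d := max (Fn b a e h₁) (Fn a b e h₂) with hd
    have l₁ : Ph b a e h₁ ≤ d ^ 2 := by
      rw [← s₁]; exact pow_le_pow_left₀ n₁ (le_max_left _ _) 2
    have l₂ : Ph a b e h₂ ≤ d ^ 2 := by
      rw [← s₂]; exact pow_le_pow_left₀ n₂ (le_max_right _ _) 2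
    have m₁ : b * h₁ ≤ d ^ 2 := by
      rcases k₁ with h | h
      · rw [h, mul_zero]; exact sq_nonneg _
      · exact (Ph_ge_s hb h).trans l₁
    have m₂ : h₂ ≤ d ^ 2 := by
      rcases k₂ with h | h
      · rw [h]; exact sq_nonneg _
      · exact (Ph_ge ha h).trans l₂
    have a0 : 0 ≤ a := by linarith
    have := mul_le_mul_of_nonneg_left m₁ a0
    have := mul_le_mul_of_nonneg_left m₂ a0
    nlinarith

/-- The weighted pair of cube embeddings. -/
def emb {I : Type u} [Fintype I] (l m : ℝ) (x y : I → Bool) : EuclideanSpace ℝ (I ⊕ I) :=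
  WithLp.toLp 2 (Sum.elim (fun i => √l * (if x i = true then (1 : ℝ) else 0))
    (fun i => √m * (if y i = true then (1 : ℝ) else 0)))

lemma emb_sq {I : Type u} [Fintype I] {l m : ℝ} (hl : 0 ≤ l) (hm : 0 ≤ m)
    (x y x' y' : I → Bool) :
    ‖emb l m x y - emb l m x' y'‖ ^ 2 = l * hd x x' + m * hd y y' := by
  rw [EuclideanSpace.norm_sq_eq, Fintype.sum_sum_type, hd_eq_sum, hd_eq_sum, Finset.mul_sum,
    Finset.mul_sum]
  congr 1
  · refine Finset.sum_congr rfl fun i _ => ?_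
    simp only [emb, PiLp.sub_apply, Sum.elim_inl, Real.norm_eq_abs, sq_abs]
    rw [← mul_sub, mul_pow, Real.sq_sqrt hl]
  · refine Finset.sum_congr rfl fun i _ => ?_
    simp only [emb, PiLp.sub_apply, Sum.elim_inr, Real.norm_eq_abs, sq_abs]
    rw [← mul_sub, mul_pow, Real.sq_sqrt hm]

/-- From squared two-sided bounds to an embedding into a Euclidean space. -/
lemma embedsEuc_of_sq {X : Type u} [MetricSpace X] {ι : Type v} [Fintype ι]
    (g : X → EuclideanSpace ℝ ι) {D : ℝ} (hD : 0 ≤ D)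
    (h : ∀ x y, dist x y ^ 2 ≤ ‖g x - g y‖ ^ 2 ∧ ‖g x - g y‖ ^ 2 ≤ D ^ 2 * dist x y ^ 2) :
    EmbedsEuc X D := by
  classical
  left
  let T := LinearIsometryEquiv.piLpCongrLeft 2 ℝ ℝ (Fintype.equivFin ι)
  refine ⟨Fintype.card ι, fun x => T (g x), ⟨D, hD⟩, 1, ?_, ?_, (mul_one D).le⟩
  · refine LipschitzWith.of_dist_le_mul fun x y => ?_
    rw [T.dist_map, dist_eq_norm]
    refine le_of_sq_le_sq ?_ (mul_nonneg hD dist_nonneg)
    rw [mul_pow]
    exact (h x y).2
  · refine AntilipschitzWith.of_le_mul_dist fun x y => ?_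
    rw [T.dist_map, dist_eq_norm (g x), NNReal.coe_one, one_mul]
    exact le_of_sq_le_sq (h x y).1 (norm_nonneg _)

theorem lower_main {a b : ℝ} (ha : 1 ≤ a) (hb : 1 ≤ b) :
    ∃ (X : Type u) (_ : MetricSpace X) (A B : Set X), A ∪ B = Set.univ ∧
      EmbedsEuc A (√(6 * a)) ∧ EmbedsEuc B (√(6 * b)) ∧
      ∀ D : ℝ, EmbedsWith X L2 D → a * b ≤ 400 * D ^ 2 := by
  classical
  set m : ℝ := max a b with hm
  have ham : a ≤ m := le_max_left _ _
  have hbm : b ≤ m := le_max_right _ _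
  have hm1 : 1 ≤ m := ha.trans ham
  obtain ⟨g, hg⟩ := exists_nat_ge (m ^ 2)
  obtain ⟨n, hn⟩ := exists_nat_ge (11 * m)
  have hmg : m ≤ g := by nlinarith
  have hg1 : (1 : ℝ) ≤ g := hm1.trans hmg
  have hn0 : (0 : ℝ) < n := by linarith
  haveI : NeZero n := ⟨by
    intro h
    rw [h] at hn0
    simp at hn0⟩
  let G : Type u := ULift.{u} (Fin g)
  have hG : (Fintype.card G : ℝ) = g := by simp [G]
  set e : ℝ := g + 2 * m with he
  have he0 : 0 < e := by positivity
  have he3 : e ≤ 3 * g := by linarith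
  have hme : m ≤ e := by linarith
  obtain ⟨N, -, hsep, hcov⟩ := exists_net (W := G × Fin n → Bool) hd hd_self hd_comm m
    (by linarith) Set.univ
  choose R hRN hR using fun x => hcov x (Set.mem_univ x)
  letI mt : MetricSpace (Pt N e) := mPt N e ha hb he0
  have hdist : ∀ x y : Pt N e, dist x y
      = max (Fn b a e (hd x.1.1 y.1.1)) (Fn a b e (hd x.1.2 y.1.2)) := fun _ _ => rfl
  have sepc : ∀ x ∈ N, ∀ y ∈ N, ∀ c : ℝ, c ≤ m → hd x y = 0 ∨ c ≤ hd x y := by
    intro x hx y hy c hc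
    by_cases h : x = y
    · left; rw [h, hd_self]
    · right; exact hc.trans (hsep x hx y hy h)
  have onec : ∀ x y : G × Fin n → Bool, hd x y = 0 ∨ 1 ≤ hd x y := by
    intro x y
    rcases hd_cases x y with h | h
    · left; rw [h, hd_self]
    · exact Or.inr h
  have tri4 : ∀ x y x' y' : G × Fin n → Bool, hd x y ≤ e → hd x' y' ≤ e →
      hd y y' ≤ hd x x' + 2 * e := by
    intro x y x' y' h1 h2
    have a1 := hd_tri y x y'
    have a2 := hd_tri x x' y'
    rw [hd_comm y x] at a1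
    linarith
  refine ⟨Pt N e, mt, {p | p.1.1 ∈ N ∧ hd p.1.1 p.1.2 ≤ e}, {p | p.1.2 ∈ N ∧ hd p.1.2 p.1.1 ≤ e},
    ?_, ?_, ?_, ?_⟩
  · exact Set.eq_univ_of_forall fun p => p.2
  · refine embedsEuc_of_sq (fun p => emb (2 * a * b) (4 * a) p.1.1.1 p.1.1.2)
      (Real.sqrt_nonneg _) fun x y => ?_
    rw [emb_sq (by positivity) (by positivity), Real.sq_sqrt (by positivity), Subtype.dist_eq,
      hdist]
    exact num_embed ha hb he0 (sepc _ x.2.1 _ y.2.1 b hbm) (onec _ _)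
      (tri4 _ _ _ _ x.2.2 y.2.2)
  · refine embedsEuc_of_sq (fun p => emb (2 * b * a) (4 * b) p.1.1.2 p.1.1.1)
      (Real.sqrt_nonneg _) fun x y => ?_
    rw [emb_sq (by positivity) (by positivity), Real.sq_sqrt (by positivity), Subtype.dist_eq,
      hdist, max_comm]
    exact num_embed hb ha he0 (sepc _ x.2.1 _ y.2.1 a ham) (onec _ _)
      (tri4 _ _ _ _ x.2.2 y.2.2)
  · rintro D ⟨F, K, K', hK, hK', hD⟩
    have hK0 : (0 : ℝ) ≤ K := K.2
    have hK'0 : (0 : ℝ) ≤ K' := K'.2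
    let f : (G × Fin n → Bool) → (G × Fin n → Bool) → L2 := fun x y =>
      if h : (x ∈ N ∧ hd x y ≤ e) ∨ (y ∈ N ∧ hd y x ≤ e) then F ⟨(x, y), h⟩ else 0
    have hfA : ∀ p t t', hd (R p) t ≤ e → hd (R p) t' ≤ e →
        ‖f (R p) t - f (R p) t'‖ ≤ K * Fn a b e (hd t t') := by
      intro p t t' h1 h2
      have k1 : (R p ∈ N ∧ hd (R p) t ≤ e) ∨ (t ∈ N ∧ hd t (R p) ≤ e) := Or.inl ⟨hRN p, h1⟩
      have k2 : (R p ∈ N ∧ hd (R p) t' ≤ e) ∨ (t' ∈ N ∧ hd t' (R p) ≤ e) := Or.inl ⟨hRN p, h2⟩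
      simp only [f, dif_pos k1, dif_pos k2]
      rw [← dist_eq_norm]
      refine (hK.dist_le_mul _ _).trans (le_of_eq ?_)
      rw [hdist]
      simp only [hd_self, Fn_zero]
      rw [max_eq_right (Fn_nonneg _)]
    have hfB : ∀ p t t', hd (R p) t ≤ e → hd (R p) t' ≤ e →
        ‖f t (R p) - f t' (R p)‖ ≤ K * Fn b a e (hd t t') := by
      intro p t t' h1 h2
      have k1 : (t ∈ N ∧ hd t (R p) ≤ e) ∨ (R p ∈ N ∧ hd (R p) t ≤ e) := Or.inr ⟨hRN p, h1⟩
      have k2 : (t' ∈ N ∧ hd t' (R p) ≤ e) ∨ (R p ∈ N ∧ hd (R p) t' ≤ e) := Or.inr ⟨hRN p, h2⟩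
      simp only [f, dif_pos k1, dif_pos k2]
      rw [← dist_eq_norm]
      refine (hK.dist_le_mul _ _).trans (le_of_eq ?_)
      rw [hdist]
      simp only [hd_self, Fn_zero]
      rw [max_eq_left (Fn_nonneg _)]
    have b0 : ∀ s t h : ℝ, 1 ≤ s → s ≤ m → 0 ≤ h → h ≤ 2 → K * Fn s t e h ≤ K * 2 := by
      intro s t h hs hsm h0 h2
      refine mul_le_mul_of_nonneg_left (Fn_le_of_sq (by norm_num) ?_) hK0
      have := Ph_two (t := t) hs he0 (hsm.trans hme) h0 h2
      linarith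
    have b1 : ∀ s t h : ℝ, 1 ≤ s → s ≤ m → 0 ≤ h → h ≤ m → K * Fn s t e h ≤ K * √g := by
      intro s t h hs hsm h0 h2
      refine mul_le_mul_of_nonneg_left (Fn_le_of_sq (Real.sqrt_nonneg _) ?_) hK0
      have := Ph_le_small (t := t) hs he0 h0 le_rfl (show h ≤ 1 * e by linarith)
      rw [Real.sq_sqrt (Nat.cast_nonneg _)]
      have h3 : s * h ≤ m * m := mul_le_mul hsm h2 h0 (by linarith)
      nlinarith
    have b2 : ∀ h : ℝ, 0 ≤ h → h ≤ e → K * Fn a b e h ≤ K * (√n * √g) := by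
      intro h h0 h2
      refine mul_le_mul_of_nonneg_left (Fn_le_of_sq (by positivity) ?_) hK0
      have := Ph_le_small (t := b) ha he0 h0 le_rfl (show h ≤ 1 * e by linarith)
      rw [mul_pow, Real.sq_sqrt (Nat.cast_nonneg _), Real.sq_sqrt (Nat.cast_nonneg _)]
      have h3 : a * h ≤ m * (3 * g) := mul_le_mul ham (h2.trans he3) h0 (by linarith)
      have h4 : 11 * m * g ≤ n * g := mul_le_mul_of_nonneg_right hn (by linarith)
      have h5 : 0 ≤ m * g := by positivity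
      nlinarith
    have hup := diag (E := L2) R (δ := m) (ρ := e) (c₀ := K * 2) (c₁ := K * √g)
      (c₂ := K * (√n * √g)) (by linarith) (by positivity) (by positivity) (by positivity) hR
      (by rw [hG]) f
      (fun p t t' h1 h2 h3 => (hfA p t t' h1 h2).trans (b0 _ _ _ ha ham (hd_nonneg _ _) h3))
      (fun p t t' h1 h2 h3 => (hfA p t t' h1 h2).trans (b1 _ _ _ ha ham (hd_nonneg _ _) h3))
      (fun p t h1 => (hfA p (R p) t (by rw [hd_self]; exact he0.le) h1).trans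
        (b2 _ (hd_nonneg _ _) h1))
      (fun p t t' h1 h2 h3 => (hfB p t t' h1 h2).trans (b0 _ _ _ hb hbm (hd_nonneg _ _) h3))
      (fun p t t' h1 h2 h3 => (hfB p t t' h1 h2).trans (b1 _ _ _ hb hbm (hd_nonneg _ _) h3))
    have hval : (2 * √(n : ℝ) * (√(Fintype.card G : ℝ) * (K * 2) + 2 * (K * √g))
        + 2 * (K * (√n * √g))) ^ 2 = 100 * K ^ 2 * (n * g) := by
      rw [hG]
      have : (2 * √(n : ℝ) * (√(g : ℝ) * (K * 2) + 2 * (K * √g)) + 2 * (K * (√n * √g)))
          = 10 * K * (√n * √g) := by ring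
      rw [this, mul_pow, mul_pow, mul_pow, Real.sq_sqrt (Nat.cast_nonneg _),
        Real.sq_sqrt (Nat.cast_nonneg _)]
      norm_num
    rw [hval] at hup
    have hlow : ∀ x x' : G × Fin n → Bool,
        a * b * hd x x' + (-(2 * a * b * m) - a * b ^ 2 * e / 4)
          ≤ K' ^ 2 * ‖f (R x) (R x) - f (R x') (R x')‖ ^ 2 := by
      intro x x'
      have k : ∀ z, (R z ∈ N ∧ hd (R z) (R z) ≤ e) ∨ (R z ∈ N ∧ hd (R z) (R z) ≤ e) :=
        fun z => Or.inl ⟨hRN z, by rw [hd_self]; exact he0.le⟩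
      simp only [f, dif_pos (k x), dif_pos (k x')]
      have h1 := hK'.le_mul_dist (⟨(R x, R x), k x⟩ : Pt N e) ⟨(R x', R x'), k x'⟩
      rw [hdist, dist_eq_norm] at h1
      have h2 := pow_le_pow_left₀ (Fn_nonneg _) ((le_max_right _ _).trans h1) 2
      rw [Fn_sq ha (hd_nonneg _ _), mul_pow] at h2
      refine le_trans ?_ h2
      refine le_trans ?_ (Ph_lower ha hb he0 _)
      have a1 := hd_tri x (R x) x'
      have a2 := hd_tri (R x) (R x') x'
      have a3 := hR x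
      have a4 := hR x'
      rw [hd_comm] at a4
      have a5 : hd x x' - 2 * m ≤ hd (R x) (R x') := by linarith
      have a6 := mul_le_mul_of_nonneg_left a5 (show 0 ≤ a * b by positivity)
      simp only at a6 ⊢
      nlinarith
    have hav : (av fun x : G × Fin n → Bool => av fun x' : G × Fin n → Bool =>
        a * b * hd x x' + (-(2 * a * b * m) - a * b ^ 2 * e / 4))
        ≤ av fun x : G × Fin n → Bool => av fun x' : G × Fin n → Bool =>
          K' ^ 2 * ‖f (R x) (R x) - f (R x') (R x')‖ ^ 2 :=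
      av_mono fun x => av_mono fun x' => hlow x x'
    have hcard : (Fintype.card (G × Fin n) : ℝ) = n * g := by
      rw [Fintype.card_prod, Nat.cast_mul, hG, Fintype.card_fin, mul_comm]
    simp only [av_add, av_mul, av_const, av_hd, hcard] at hav
    have h7 := mul_le_mul_of_nonneg_left hup (sq_nonneg (K' : ℝ))
    have h8 : a * b * (n * g / 4) ≤ a * b * (n * g / 2) + (-(2 * a * b * m) - a * b ^ 2 * e / 4) := by
      have h4 : 11 * m * g ≤ n * g := mul_le_mul_of_nonneg_right hn (by linarith)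
      have h5 : b * e ≤ m * (3 * g) := mul_le_mul hbm he3 he0.le (by linarith)
      have h6 : m ≤ m * g := le_mul_of_one_le_right (by linarith) hg1
      have h9 : n * g / 4 ≤ n * g / 2 - 2 * m - b * e / 4 := by nlinarith
      have := mul_le_mul_of_nonneg_left h9 (show 0 ≤ a * b by positivity)
      nlinarith
    have h10 : (K * K' : ℝ) ^ 2 ≤ D ^ 2 := pow_le_pow_left₀ (by positivity) hD 2
    have hng : (0 : ℝ) < n * g := by positivity
    have h11 : a * b * (n * g) ≤ 400 * (K * K' : ℝ) ^ 2 * (n * g) := by nlinarith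
    have h12 := le_of_mul_le_mul_right h11 hng
    linarith

/-- A single space of distortion at most `D` that needs distortion `D / 2`. -/
theorem lower_single {b : ℝ} (hb : 1 ≤ b) :
    ∃ (X : Type u) (_ : MetricSpace X), EmbedsEuc (Set.univ : Set X) (√b) ∧
      ∀ D : ℝ, EmbedsWith X L2 D → b ≤ 4 * D ^ 2 := by
  classical
  obtain ⟨g, hg⟩ := exists_nat_ge b
  let G : Type u := ULift.{u} (Fin g)
  have hG : (Fintype.card G : ℝ) = g := by simp [G]
  have hb0 : 0 < b := by linarith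
  letI mt : MetricSpace (Wd G) :=
    { dist := fun x y => Fn b 1 b (hd (G := G) (Z := Bool) x y)
      dist_self := fun x => by rw [hd_self, Fn_zero]
      dist_comm := fun x y => by rw [hd_comm]
      dist_triangle := fun x y z => Fn_tri (G := G) (Z := Bool) hb le_rfl hb0 x y z
      eq_of_dist_eq_zero := fun h => eq_of_Fn_le (G := G) (Z := Bool) hb h.le }
  have hdist : ∀ x y : Wd G, dist x y = Fn b 1 b (hd (G := G) (Z := Bool) x y) := fun _ _ => rfl
  refine ⟨Wd G, mt, ?_, ?_⟩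
  · refine embedsEuc_of_sq (fun p => emb (I := G) b 0 p.1 p.1) (Real.sqrt_nonneg _) fun x y => ?_
    rw [emb_sq hb0.le le_rfl, Real.sq_sqrt hb0.le, Subtype.dist_eq, hdist,
      Fn_sq hb (hd_nonneg _ _), zero_mul, add_zero]
    constructor
    · have := Ph_le_st (e := b) hb le_rfl (hd_nonneg (G := G) (Z := Bool) x.1 y.1)
      linarith
    · rcases hd_cases (G := G) (Z := Bool) x.1 y.1 with h | h
      · rw [h, hd_self, Ph_zero]
      · exact mul_le_mul_of_nonneg_left (Ph_ge hb h) hb0.le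
  · rintro D ⟨F, K, K', hK, hK', hD⟩
    have hK0 : (0 : ℝ) ≤ K := K.2
    have hK'0 : (0 : ℝ) ≤ K' := K'.2
    have hup := es_one (G := G) (Z := Bool) (E := L2) (fun x => F x) (c := K) (by
      intro x y h
      rw [← dist_eq_norm]
      refine (hK.dist_le_mul _ _).trans ?_
      rw [hdist]
      refine mul_le_of_le_one_right hK0 (Fn_le_of_sq zero_le_one ?_)
      refine (Ph_mono hb le_rfl hb0 (hd_nonneg _ _) h).trans ?_
      refine max_le ((min_le_left _ _).trans (by norm_num)) ((min_le_left _ _).trans ?_)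
      rw [div_le_iff₀ hb0]
      linarith)
    have hlow : ∀ x x' : G → Bool, b * hd x x' + (-(b ^ 2 / 4)) ≤ K' ^ 2 * ‖F x - F x'‖ ^ 2 := by
      intro x x'
      have h1 := hK'.le_mul_dist (x : Wd G) x'
      rw [hdist, dist_eq_norm] at h1
      have h2 := pow_le_pow_left₀ (Fn_nonneg _) h1 2
      rw [Fn_sq hb (hd_nonneg _ _), mul_pow] at h2
      have h3 := Ph_lower' (t := 1) (e := b) hb (hd x x')
      linarith
    have hav : (av fun x : G → Bool => av fun x' : G → Bool => b * hd x x' + (-(b ^ 2 / 4)))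
        ≤ av fun x : G → Bool => av fun x' : G → Bool => K' ^ 2 * ‖F x - F x'‖ ^ 2 :=
      av_mono fun x => av_mono fun x' => hlow x x'
    simp only [av_add, av_mul, av_const, av_hd, hG] at hav
    rw [hG] at hup
    have h7 := mul_le_mul_of_nonneg_left hup (sq_nonneg (K' : ℝ))
    have h10 : (K * K' : ℝ) ^ 2 ≤ D ^ 2 := pow_le_pow_left₀ (by positivity) hD 2
    have hg0 : (0 : ℝ) < g := by linarith
    have h11 : b * g ≤ 4 * (K * K' : ℝ) ^ 2 * g := by nlinarith
    have h12 := le_of_mul_le_mul_right h11 hg0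
    linarith

lemma embedsEuc_empty {X : Type u} [MetricSpace X] {D : ℝ} (hD : 0 ≤ D) :
    EmbedsEuc (∅ : Set X) D :=
  embedsEuc_of_sq (ι := Fin 0) (fun _ => 0) hD fun x => absurd x.2 (Set.notMem_empty _)

lemma UnionProp.symm {DA DB D : ℝ} (h : UnionProp.{u} DA DB D) : UnionProp.{u} DB DA D :=
  fun X _ A B hU hA hB => h X B A (by rw [Set.union_comm, hU]) hB hA

lemma lower_small {DA DB D : ℝ} (hA : 1 ≤ DA) (hB : 1 ≤ DB) (h : UnionProp.{u} DA DB D) :
    DB ^ 2 ≤ 4 * D ^ 2 ∧ 0 ≤ D := by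
  obtain ⟨X, mX, hX, hlow⟩ := lower_single.{u} (b := DB ^ 2) (by nlinarith)
  rw [Real.sqrt_sq (by linarith)] at hX
  have h1 := h X ∅ Set.univ (by simp) (embedsEuc_empty (by linarith)) hX
  refine ⟨hlow D h1, ?_⟩
  obtain ⟨F, K, K', -, -, hD⟩ := h1
  exact le_trans (mul_nonneg K.2 K'.2) hD

theorem lower {DA DB D : ℝ} (hA : 1 ≤ DA) (hB : 1 ≤ DB) (h : UnionProp.{u} DA DB D) :
    DA * DB / 120 ≤ D := by
  obtain ⟨s1, hD0⟩ := lower_small hA hB h
  obtain ⟨s2, -⟩ := lower_small hB hA (UnionProp.symm h)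
  refine le_of_sq_le_sq ?_ hD0
  have hA2 : 1 ≤ DA ^ 2 := by nlinarith
  have hB2 : 1 ≤ DB ^ 2 := by nlinarith
  rw [div_pow, mul_pow]
  by_cases c1 : DA ^ 2 ≤ 6
  · have := mul_le_mul c1 s1 (by positivity) (by norm_num)
    nlinarith [sq_nonneg D]
  by_cases c2 : DB ^ 2 ≤ 6
  · have := mul_le_mul s2 c2 (by positivity) (by positivity)
    nlinarith [sq_nonneg D]
  push Not at c1 c2
  obtain ⟨X, mX, A, B, hU, eA, eB, hlow⟩ :=
    lower_main.{u} (a := DA ^ 2 / 6) (b := DB ^ 2 / 6) (by linarith) (by linarith)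
  rw [show 6 * (DA ^ 2 / 6) = DA ^ 2 by ring, Real.sqrt_sq (by linarith)] at eA
  rw [show 6 * (DB ^ 2 / 6) = DB ^ 2 by ring, Real.sqrt_sq (by linarith)] at eB
  have := hlow D (h X A B hU eA eB)
  nlinarith

end

end H460Z.Un
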