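import Pool.Agent.H460Z.UnDefs
import Pool.Agent.Helper799.UnionK.Upper2

/-!
The upper bound `7 * DA * DB` for the union of two pieces.
-/

namespace H460Z.Un

open H799U H460Z.UnDefs TopologicalSpace
open scoped BigOperators NNReal

noncomputable section

universe u v

theorem sepL2 : SeparableSpace L2 := by
  let b : HilbertBasis ℕ ℝ L2 := default
  have h1 : IsSeparable (Submodule.span ℝ (Set.range b) : Set L2) :=
    (Set.countable_range b).isSeparable.span
  have h2 := h1.closure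
  rw [← Submodule.topologicalClosure_coe, b.dense_span] at h2
  exact isSeparable_univ_iff.mp h2

/-- A separable Hilbert space embeds isometrically into `L2`. -/
lemma exists_iso_L2 (V : Type u) [NormedAddCommGroup V] [InnerProductSpace ℝ V]
    [CompleteSpace V] [SeparableSpace V] : ∃ T : V → L2, ∀ x y, ‖T x - T y‖ = ‖x - y‖ := by
  obtain ⟨w, b, hb⟩ := exists_hilbertBasis ℝ V
  have hc : Countable w := by
    refine Pairwise.countable_of_isOpen_disjoint (s := fun i : w => Metric.ball (b i) (1 / 2))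
      ?_ (fun _ => Metric.isOpen_ball) (fun _ => Metric.nonempty_ball.mpr (by norm_num))
    intro i j hij
    refine Metric.ball_disjoint_ball ?_
    rw [dist_eq_norm]
    have h1 : ‖b i - b j‖ ^ 2 = 2 := by
      rw [@norm_sub_sq_real, b.orthonormal.1 i, b.orthonormal.1 j, b.orthonormal.2 hij]
      norm_num
    nlinarith [norm_nonneg (b i - b j)]
  obtain ⟨e, he⟩ := exists_injective_nat w
  let c : HilbertBasis ℕ ℝ L2 := default
  have ho : Orthonormal ℝ (c ∘ e) := c.orthonormal.comp e he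
  let S := ho.orthogonalFamily.linearIsometry
  refine ⟨fun x => S (b.repr x), fun x y => ?_⟩
  rw [← map_sub, ← map_sub, S.norm_map, b.repr.norm_map]

lemma norm_piece {A : Type u} [MetricSpace A] {H : Type} [NormedAddCommGroup H]
    [InnerProductSpace ℝ H] [SeparableSpace H] {D : ℝ} (h : EmbedsWith A H D) :
    SeparableSpace A ∧ ∃ f : A → H, ∀ x y, ‖f x - f y‖ ≤ dist x y ∧
      dist x y ≤ D * ‖f x - f y‖ := by
  obtain ⟨f, K, K', hK, hK', hD⟩ := h
  have : SecondCountableTopology H := UniformSpace.secondCountable_of_separable H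
  refine ⟨(hK'.isEmbedding hK.continuous).separableSpace, ?_⟩
  have hK'0 : (0 : ℝ) ≤ K' := K'.2
  rcases (show (0 : ℝ) ≤ K from K.2).eq_or_lt with h0 | h0
  · refine ⟨f, fun x y => ?_⟩
    have h1 := hK.dist_le_mul x y
    have h2 := hK'.le_mul_dist x y
    rw [← h0, zero_mul, dist_eq_norm] at h1
    have h3 : ‖f x - f y‖ = 0 := le_antisymm h1 (norm_nonneg _)
    rw [dist_eq_norm (f x), h3] at h2
    rw [h3]
    exact ⟨dist_nonneg, by simpa using h2⟩
  · refine ⟨fun x => (K : ℝ)⁻¹ • f x, fun x y => ?_⟩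
    have h1 := hK.dist_le_mul x y
    have h2 := hK'.le_mul_dist x y
    rw [dist_eq_norm (f x)] at h1 h2
    have h3 : ‖(K : ℝ)⁻¹ • f x - (K : ℝ)⁻¹ • f y‖ = (K : ℝ)⁻¹ * ‖f x - f y‖ := by
      rw [← smul_sub, norm_smul, Real.norm_of_nonneg (by positivity)]
    rw [h3]
    constructor
    · rw [inv_mul_le_iff₀ h0]; exact h1
    · refine h2.trans ?_
      have h4 : (K' : ℝ) * ‖f x - f y‖ = (K * K') * ((K : ℝ)⁻¹ * ‖f x - f y‖) := by
        field_simp
      rw [h4]
      exact mul_le_mul_of_nonneg_right hD (by positivity)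

lemma norm_euc {A : Type u} [MetricSpace A] {D : ℝ} (h : EmbedsEuc A D) :
    SeparableSpace A ∧ ∃ (H : Type) (_ : NormedAddCommGroup H) (_ : InnerProductSpace ℝ H)
      (f : A → H), ∀ x y, ‖f x - f y‖ ≤ dist x y ∧ dist x y ≤ D * ‖f x - f y‖ := by
  have := sepL2
  rcases h with ⟨a, h⟩ | h
  · obtain ⟨h1, f, hf⟩ := norm_piece h
    exact ⟨h1, _, inferInstance, inferInstance, f, hf⟩
  · obtain ⟨h1, f, hf⟩ := norm_piece h
    exact ⟨h1, _, inferInstance, inferInstance, f, hf⟩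

/-- The finite case. -/
lemma fin_case {X : Type u} [MetricSpace X] [Fintype X] (A B : Set X) (hU : ∀ x, x ∈ A ∨ x ∈ B)
    {DA DB : ℝ} (hA1 : 1 ≤ DA) (hB1 : 1 ≤ DB) {nA nB : ℕ} (gA : X → Fin nA → ℝ)
    (gB : X → Fin nB → ℝ)
    (hA : ∀ y ∈ A, ∀ z ∈ A, ∑ i, (gA y i - gA z i) ^ 2 ≤ dist y z ^ 2 ∧
      dist y z ^ 2 ≤ DA ^ 2 * ∑ i, (gA y i - gA z i) ^ 2)
    (hB : ∀ y ∈ B, ∀ z ∈ B, ∑ i, (gB y i - gB z i) ^ 2 ≤ dist y z ^ 2 ∧
      dist y z ^ 2 ≤ DB ^ 2 * ∑ i, (gB y i - gB z i) ^ 2) :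
    ∃ (ι : Type) (_ : Fintype ι) (Φ : X → ι → ℝ), ∀ x y,
      dist x y ^ 2 ≤ ∑ a, (Φ x a - Φ y a) ^ 2 ∧
      ∑ a, (Φ x a - Φ y a) ^ 2 ≤ 49 * (DA * DB) ^ 2 * dist x y ^ 2 := by
  classical
  have hA2 : 1 ≤ DA ^ 2 := by nlinarith
  have hB2 : 1 ≤ DB ^ 2 := by nlinarith
  have scale : ∀ {n : ℕ} (c : ℝ) (g : X → Fin n → ℝ) (x y : X),
      ∑ i, (c * g x i - c * g y i) ^ 2 = c ^ 2 * ∑ i, (g x i - g y i) ^ 2 := by
    intro n c g x y
    rw [Finset.mul_sum]
    exact Finset.sum_congr rfl fun i _ => by ring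
  by_cases eA : A.Nonempty
  swap
  · have hall : ∀ x, x ∈ B := fun x => (hU x).resolve_left fun h => eA ⟨x, h⟩
    refine ⟨Fin nB, inferInstance, fun x i => DB * gB x i, fun x y => ?_⟩
    rw [scale]
    obtain ⟨h1, h2⟩ := hB x (hall x) y (hall y)
    refine ⟨h2, (mul_le_mul_of_nonneg_left h1 (sq_nonneg _)).trans ?_⟩
    refine mul_le_mul_of_nonneg_right ?_ (sq_nonneg _)
    rw [mul_pow]
    nlinarith
  by_cases eB : B.Nonempty
  swap
  · have hall : ∀ x, x ∈ A := fun x => (hU x).resolve_right fun h => eB ⟨x, h⟩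
    refine ⟨Fin nA, inferInstance, fun x i => DA * gA x i, fun x y => ?_⟩
    rw [scale]
    obtain ⟨h1, h2⟩ := hA x (hall x) y (hall y)
    refine ⟨h2, (mul_le_mul_of_nonneg_left h1 (sq_nonneg _)).trans ?_⟩
    refine mul_le_mul_of_nonneg_right ?_ (sq_nonneg _)
    rw [mul_pow]
    nlinarith
  obtain ⟨FA, hFA1, hFA2⟩ := ext_step (X := X) (fun x y => dist x y) dist_comm
    (fun _ _ => dist_nonneg) dist_self (fun x y h => dist_pos.mpr h) dist_triangle DB
    (by linarith) A eA gA 1 one_pos (fun x hx y hy => by rw [one_mul]; exact (hA x hx y hy).1)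
    ⟨Fin nB, inferInstance, gB, fun y z hy hz =>
      hB y ((hU y).resolve_left hy) z ((hU z).resolve_left hz)⟩ (25 / 4 * DB ^ 2) (by nlinarith)
  obtain ⟨FB, hFB1, hFB2⟩ := ext_step (X := X) (fun x y => dist x y) dist_comm
    (fun _ _ => dist_nonneg) dist_self (fun x y h => dist_pos.mpr h) dist_triangle DA
    (by linarith) B eB gB 1 one_pos (fun x hx y hy => by rw [one_mul]; exact (hB x hx y hy).1)
    ⟨Fin nA, inferInstance, gA, fun y z hy hz =>
      hA y ((hU y).resolve_right hy) z ((hU z).resolve_right hz)⟩ (25 / 4 * DA ^ 2) (by nlinarith)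
  simp only [one_mul] at hFA2 hFB2
  set P : ℝ := DA * DB with hP
  have hP1 : 1 ≤ P := by rw [hP]; nlinarith
  set lam : ℝ := 7 / 2 * P with hlam
  have hs2 : √2 ^ 2 = (2 : ℝ) := Real.sq_sqrt (by norm_num)
  let Φ : X → Fin nA ⊕ (Fin nB ⊕ Unit) → ℝ := fun x =>
    Sum.elim (fun i => DA * FA x i)
      (Sum.elim (fun i => (√2 * DB) * FB x i) (fun _ => √2 * lam * Metric.infDist x B))
  have hΦ : ∀ x y, ∑ a, (Φ x a - Φ y a) ^ 2 = DA ^ 2 * ∑ i, (FA x i - FA y i) ^ 2
      + (2 * (DB ^ 2 * ∑ i, (FB x i - FB y i) ^ 2)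
        + 2 * (lam * (Metric.infDist x B - Metric.infDist y B)) ^ 2) := by
    intro x y
    rw [Fintype.sum_sum_type, Fintype.sum_sum_type]
    simp only [Φ, Sum.elim_inl, Sum.elim_inr, Finset.univ_unique, Finset.sum_singleton]
    rw [scale, scale, mul_pow √2 DB, hs2]
    have : (√2 * lam * Metric.infDist x B - √2 * lam * Metric.infDist y B) ^ 2
        = √2 ^ 2 * (lam * (Metric.infDist x B - Metric.infDist y B)) ^ 2 := by ring
    rw [this, hs2]
    ring
  have nA0 : ∀ x y, 0 ≤ DA ^ 2 * ∑ i, (FA x i - FA y i) ^ 2 := fun x y =>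
    mul_nonneg (sq_nonneg _) (Finset.sum_nonneg fun _ _ => sq_nonneg _)
  have nB0 : ∀ x y, 0 ≤ ∑ i, (FB x i - FB y i) ^ 2 := fun x y =>
    Finset.sum_nonneg fun _ _ => sq_nonneg _
  have mixed : ∀ x y, y ∈ B → dist x y ^ 2 ≤ 2 * (DB ^ 2 * ∑ i, (FB x i - FB y i) ^ 2)
      + 2 * (lam * (Metric.infDist x B - Metric.infDist y B)) ^ 2 := by
    intro x y hy
    obtain ⟨z, hz, hr⟩ := (Set.toFinite B).isCompact.exists_infDist_eq_dist eB x
    rw [Metric.infDist_zero_of_mem hy, sub_zero, hr]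
    set r := dist x z with hrdef
    have hr0 : 0 ≤ r := dist_nonneg
    set u := √(∑ i, (FB x i - FB y i) ^ 2) with hu
    have hu2 : u ^ 2 = ∑ i, (FB x i - FB y i) ^ 2 := Real.sq_sqrt (nB0 x y)
    have hu0 : 0 ≤ u := Real.sqrt_nonneg _
    have t1 := l2_tri (FB z) (FB x) (FB y)
    have t2 : √(∑ i, (FB z i - FB x i) ^ 2) ≤ 5 / 2 * DA * r := by
      refine Real.sqrt_le_iff.mpr ⟨by positivity, (hFB2 z x).trans (le_of_eq ?_)⟩
      rw [dist_comm z x]
      ring
    have t3 : dist z y ≤ DB * √(∑ i, (FB z i - FB y i) ^ 2) := by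
      refine le_of_sq_le_sq ?_ (by positivity)
      rw [mul_pow, Real.sq_sqrt (nB0 z y), hFB1 z hz, hFB1 y hy]
      exact (hB z hz y hy).2
    have t4 : dist z y ≤ DB * (5 / 2 * DA * r + u) :=
      t3.trans (mul_le_mul_of_nonneg_left (by linarith) (by linarith))
    have t5 := dist_triangle x z y
    have t6 : r ≤ P * r := le_mul_of_one_le_left hr0 hP1
    have t7 : dist x y ≤ lam * r + DB * u := by
      have : DB * (5 / 2 * DA * r + u) = 5 / 2 * (P * r) + DB * u := by rw [hP]; ring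
      rw [hlam]
      linarith
    have t8 := pow_le_pow_left₀ dist_nonneg t7 2
    rw [← hu2]
    nlinarith [sq_nonneg (lam * r - DB * u)]
  refine ⟨_, inferInstance, Φ, fun x y => ⟨?_, ?_⟩⟩
  · rw [hΦ]
    rcases hU y with hy | hy
    · rcases hU x with hx | hx
      · have h1 := (hA x hx y hy).2
        rw [← hFA1 x hx, ← hFA1 y hy] at h1
        have := mul_nonneg (sq_nonneg DB) (nB0 x y)
        nlinarith [sq_nonneg (lam * (Metric.infDist x B - Metric.infDist y B))]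
      · have h1 := mixed y x hx
        have e1 : ∑ i, (FB y i - FB x i) ^ 2 = ∑ i, (FB x i - FB y i) ^ 2 :=
          Finset.sum_congr rfl fun i _ => by ring
        have e2 : (lam * (Metric.infDist y B - Metric.infDist x B)) ^ 2
            = (lam * (Metric.infDist x B - Metric.infDist y B)) ^ 2 := by ring
        rw [e1, e2, dist_comm] at h1
        linarith [nA0 x y]
    · linarith [mixed x y hy, nA0 x y]
  · rw [hΦ]
    have h1 := mul_le_mul_of_nonneg_left (hFA2 x y) (sq_nonneg DA)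
    have h2 := mul_le_mul_of_nonneg_left (hFB2 x y) (sq_nonneg DB)
    have h3 : |Metric.infDist x B - Metric.infDist y B| ≤ dist x y := by
      have := (Metric.lipschitz_infDist_pt B).dist_le_mul x y
      rwa [NNReal.coe_one, one_mul, Real.dist_eq] at this
    have h4 : (Metric.infDist x B - Metric.infDist y B) ^ 2 ≤ dist x y ^ 2 := by
      rw [← sq_abs]
      exact pow_le_pow_left₀ (abs_nonneg _) h3 2
    have h5 := mul_le_mul_of_nonneg_left h4 (sq_nonneg lam)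
    have e1 : DA ^ 2 * (25 / 4 * DB ^ 2 * dist x y ^ 2) = 25 / 4 * (P ^ 2 * dist x y ^ 2) := by
      rw [hP]; ring
    have e2 : DB ^ 2 * (25 / 4 * DA ^ 2 * dist x y ^ 2) = 25 / 4 * (P ^ 2 * dist x y ^ 2) := by
      rw [hP]; ring
    have e3 : lam ^ 2 * dist x y ^ 2 = 49 / 4 * (P ^ 2 * dist x y ^ 2) := by
      rw [hlam]; ring
    have e4 : 0 ≤ P ^ 2 * dist x y ^ 2 := by positivity
    rw [mul_pow lam]
    nlinarith

theorem upper {DA DB : ℝ} (hA1 : 1 ≤ DA) (hB1 : 1 ≤ DB) : UnionProp.{u} DA DB (7 * (DA * DB)) := by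
  classical
  intro X _ A B hU hA hB
  have hU' : ∀ x, x ∈ A ∨ x ∈ B := fun x => by
    have : x ∈ A ∪ B := by rw [hU]; exact Set.mem_univ x
    exact this
  obtain ⟨sA, HA, iA1, iA2, fA, hfA⟩ := norm_euc hA
  obtain ⟨sB, HB, iB1, iB2, fB, hfB⟩ := norm_euc hB
  have sX : SeparableSpace X := by
    rw [← isSeparable_univ_iff, ← hU]
    exact (IsSeparable.of_subtype A).union (IsSeparable.of_subtype B)
  obtain ⟨H, i1, i2, i3, Φ, hΦ⟩ := limit_embedding (X := X) (fun x y => dist x y)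
      (49 * (DA * DB) ^ 2) (by
    intro T
    have coords : ∀ (S : Set X) (D : ℝ) (H : Type) [NormedAddCommGroup H]
        [InnerProductSpace ℝ H] (f : S → H),
        (∀ x y, ‖f x - f y‖ ≤ dist x y ∧ dist x y ≤ D * ‖f x - f y‖) →
        ∃ (n : ℕ) (g : {x // x ∈ T} → Fin n → ℝ),
          ∀ y ∈ {x : {x // x ∈ T} | (x : X) ∈ S}, ∀ z ∈ {x : {x // x ∈ T} | (x : X) ∈ S},
          ∑ i, (g y i - g z i) ^ 2 ≤ dist y z ^ 2 ∧
          dist y z ^ 2 ≤ D ^ 2 * ∑ i, (g y i - g z i) ^ 2 := by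
      intro S D H _ _ f hf
      obtain ⟨n, g, hg⟩ := exists_coords (T := {x // x ∈ T})
        (fun x => if h : (x : X) ∈ S then f ⟨_, h⟩ else 0)
      refine ⟨n, g, fun y hy z hz => ?_⟩
      have hy' : (y : X) ∈ S := hy
      have hz' : (z : X) ∈ S := hz
      rw [hg y z, dif_pos hy', dif_pos hz']
      obtain ⟨h1, h2⟩ := hf ⟨_, hy'⟩ ⟨_, hz'⟩
      have hdd : dist (⟨(y : X), hy'⟩ : S) ⟨(z : X), hz'⟩ = dist y z := rfl
      rw [hdd] at h1 h2
      refine ⟨pow_le_pow_left₀ (norm_nonneg _) h1 2, ?_⟩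
      rw [← mul_pow]
      exact pow_le_pow_left₀ dist_nonneg h2 2
    obtain ⟨nA, gA, hgA⟩ := coords A DA HA fA hfA
    obtain ⟨nB, gB, hgB⟩ := coords B DB HB fB hfB
    obtain ⟨ι, hι, Φ, hΦ⟩ := fin_case (X := {x // x ∈ T}) _ _ (fun x => hU' x) hA1 hB1 gA gB
      hgA hgB
    refine ⟨ι, hι, fun x => if h : x ∈ T then Φ ⟨x, h⟩ else 0, ?_⟩
    intro x hx y hy
    simp only [dif_pos hx, dif_pos hy]
    exact hΦ ⟨x, hx⟩ ⟨y, hy⟩)
  have hP0 : 0 ≤ 7 * (DA * DB) := by positivity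
  have hlo : ∀ x y, dist x y ≤ ‖Φ x - Φ y‖ := fun x y =>
    le_of_sq_le_sq (hΦ x y).1 (norm_nonneg _)
  have hhi : ∀ x y, ‖Φ x - Φ y‖ ≤ 7 * (DA * DB) * dist x y := fun x y => by
    refine le_of_sq_le_sq ((hΦ x y).2.trans (le_of_eq ?_)) (mul_nonneg hP0 dist_nonneg)
    ring
  have hcont : Continuous Φ :=
    (LipschitzWith.of_dist_le_mul (K := ⟨_, hP0⟩) fun x y => by
      rw [dist_eq_norm]; exact hhi x y).continuous
  let V : Submodule ℝ H := (Submodule.span ℝ (Set.range Φ)).topologicalClosure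
  have hsep : IsSeparable (V : Set H) := (isSeparable_range hcont).span.closure
  have : SeparableSpace V := hsep.separableSpace
  have : CompleteSpace V := (Submodule.isClosed_topologicalClosure _).completeSpace_coe
  obtain ⟨T, hT⟩ := exists_iso_L2 V
  have hmem : ∀ x, Φ x ∈ V := fun x =>
    Submodule.le_topologicalClosure _ (Submodule.subset_span ⟨x, rfl⟩)
  have hTn : ∀ x y, ‖T ⟨Φ x, hmem x⟩ - T ⟨Φ y, hmem y⟩‖ = ‖Φ x - Φ y‖ := fun x y => by
    rw [hT]; rfl
  refine ⟨fun x => T ⟨Φ x, hmem x⟩, ⟨_, hP0⟩, 1, ?_, ?_, (mul_one _).le⟩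
  · refine LipschitzWith.of_dist_le_mul fun x y => ?_
    rw [dist_eq_norm, hTn]
    exact hhi x y
  · refine AntilipschitzWith.of_le_mul_dist fun x y => ?_
    rw [dist_eq_norm (T _), hTn, NNReal.coe_one, one_mul]
    exact hlo x y

end

end H460Z.Un
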